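import Mathlib

/-!
# Asymptotic inequalities (helper30)
-/

set_option autoImplicit false

namespace Pool.Agent.W5h30.BS

open Filter

lemma ev_pow (c : ℝ) {a b : ℝ} (h : a < b) : ∀ᶠ L : ℝ in atTop, c * L ^ a ≤ L ^ b := by
  filter_upwards [(tendsto_rpow_atTop (sub_pos.2 h)).eventually_ge_atTop c,
    eventually_gt_atTop (0 : ℝ)] with L h1 h2
  calc c * L ^ a ≤ L ^ (b - a) * L ^ a := by gcongr
    _ = L ^ b := by rw [← Real.rpow_add h2]; congr 1; ring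

lemma ev_const (c : ℝ) {b : ℝ} (h : 0 < b) : ∀ᶠ L : ℝ in atTop, c ≤ L ^ b :=
  (tendsto_rpow_atTop h).eventually_ge_atTop c

/-- the inequalities which are used -/
lemma asym (C τ : ℕ) (C0 η : ℝ) (hη : 0 < η) (hη1 : η ≤ 1 / 32) (hη2 : C * η ≤ 1 / 2) :
    ∀ᶠ L : ℝ in atTop, 1 ≤ L ∧ 4 * (τ : ℝ) + 7 ≤ L ^ η ∧ C * (2 * L ^ η) ^ C ≤ L ^ (3 / 4 : ℝ) ∧
      C0 ≤ Real.exp (L ^ (3 / 4 : ℝ)) ∧ 15 * τ * √L ≤ L ^ (3 / 4 : ℝ) ∧
      4 * L ^ (3 / 4 : ℝ) ≤ (L / (8 * (τ + 1))) * (1 / (8 * (2 * L ^ η) ^ 6)) ∧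
      2 ≤ Real.exp (L / (8 * (τ + 1))) ∧
      1 + L ^ (3 / 4 : ℝ) ≤ L / 2 ∧ 2 ≤ √L ∧ 16 * √L * L ^ η ≤ L ^ (3 / 4 : ℝ) / 2 ∧
      1 + 3 * √L ≤ L ^ (3 / 4 : ℝ) / 2 ∧ 4 * √L ≤ L ^ (3 / 4 : ℝ) ∧
      27 * L ^ η ≤ Real.exp (√L) ∧ L ^ η * L ^ η ≤ √L ∧ 2 * √L ≤ L ∧ 3 ≤ Real.exp (√L) := by
  have hτ : (0 : ℝ) ≤ τ := Nat.cast_nonneg τ
  have hC : (0 : ℝ) ≤ C := Nat.cast_nonneg C
  have e1 := eventually_ge_atTop (1 : ℝ)
  have e2 := ev_const (4 * (τ : ℝ) + 7) hη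
  have e3 := ev_pow (C * 2 ^ C) (by linarith : C * η < 3 / 4)
  have e4 := ev_const C0 (by norm_num : (0 : ℝ) < 3 / 4)
  have e5 := ev_pow (15 * (τ : ℝ)) (by norm_num : (1 / 2 : ℝ) < 3 / 4)
  have e6 := ev_pow (4 * (4096 * ((τ : ℝ) + 1))) (by linarith : 3 / 4 < 1 - 6 * η)
  have e7 := eventually_ge_atTop (8 * ((τ : ℝ) + 1))
  have e8 := ev_pow 4 (by norm_num : (3 / 4 : ℝ) < 1)
  have e9 := ev_const 4 (by norm_num : (0 : ℝ) < 1)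
  have e10 := ev_pow 32 (by linarith : 1 / 2 + η < 3 / 4)
  have e11 := ev_pow 10 (by norm_num : (1 / 2 : ℝ) < 3 / 4)
  have e12 := ev_pow 27 (by linarith : η < 1 / 2)
  have e13 := ev_pow 1 (by linarith : η + η < 1 / 2)
  have e14 := ev_pow 2 (by norm_num : (1 / 2 : ℝ) < 1)
  have e15 := ev_const 4 (by norm_num : (0 : ℝ) < 1 / 2)
  filter_upwards [e1, e2, e3, e4, e5, e6, e7, e8, e9, e10, e11, e12, e13, e14, e15]
    with L h1 h2 h3 h4 h5 h6 h7 h8 h9 h10 h11 h12 h13 h14 h15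
  have hL0 : 0 < L := lt_of_lt_of_le one_pos h1
  rw [Real.rpow_one] at h8 h9 h14
  rw [Real.sqrt_eq_rpow]
  have hs4 : 4 ≤ L ^ (1 / 2 : ℝ) := h15
  have h34 : 1 ≤ L ^ (3 / 4 : ℝ) := Real.one_le_rpow h1 (by norm_num)
  have hexp : L ^ (1 / 2 : ℝ) ≤ Real.exp (L ^ (1 / 2 : ℝ)) := by
    have := Real.add_one_le_exp (L ^ (1 / 2 : ℝ))
    linarith
  refine ⟨h1, h2, ?_, ?_, h5, ?_, ?_, ?_, by linarith, ?_, by linarith, by linarith, ?_, ?_, h14,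
    by linarith⟩
  · rw [mul_pow, ← Real.rpow_natCast (L ^ η) C, ← Real.rpow_mul hL0.le]
    calc (C : ℝ) * (2 ^ C * L ^ (η * C)) = C * 2 ^ C * L ^ (C * η) := by rw [mul_comm η]; ring
      _ ≤ _ := h3
  · have := Real.add_one_le_exp (L ^ (3 / 4 : ℝ))
    linarith
  · rw [mul_pow, ← Real.rpow_natCast (L ^ η) 6, ← Real.rpow_mul hL0.le]
    have e16 : L / (8 * ((τ : ℝ) + 1)) * (1 / (8 * (2 ^ 6 * L ^ (η * (6 : ℕ))))) =
        L ^ (1 - 6 * η) / (4096 * ((τ : ℝ) + 1)) := by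
      have : L ^ (1 - 6 * η) = L / L ^ (η * (6 : ℕ)) := by
        rw [Real.rpow_sub hL0, Real.rpow_one]
        congr 2
        push_cast
        ring
      rw [this]
      field_simp
      norm_num
    rw [e16, le_div_iff₀ (by positivity)]
    calc 4 * L ^ (3 / 4 : ℝ) * (4096 * ((τ : ℝ) + 1)) = 4 * (4096 * ((τ : ℝ) + 1)) *
          L ^ (3 / 4 : ℝ) := by ring
      _ ≤ _ := h6
  · have h16 : 1 ≤ L / (8 * ((τ : ℝ) + 1)) := by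
      rw [le_div_iff₀ (by positivity)]; linarith
    have := Real.add_one_le_exp (L / (8 * ((τ : ℝ) + 1)))
    linarith
  · linarith
  · rw [mul_assoc, ← Real.rpow_add hL0]
    linarith
  · linarith
  · rw [← Real.rpow_add hL0]
    linarith

end Pool.Agent.W5h30.BS
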