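import Pool.Agent.Y933.KD.Test

/-!
# A test for the joint distribution of many coordinates (helper30)
-/

set_option autoImplicit false

namespace Pool.Agent.W5h30.BS

open Finset Real
open Pool.Agent.Y933.KD (e norm_e e_add e_zero e_neg F F_expand F_nonneg g g_nonneg g_le_one ind
  ind_nonneg ind_le_one w appr prod_diff e_sum)

lemma F_coef {K : ℕ} (hK : 0 < K) (u : ℝ) : ∃ c : ℤ → ℂ, (∀ h, ‖c h‖ ≤ 1) ∧ c 0 = 1 ∧
    ∀ x, ((F K (x - u) : ℝ) : ℂ) = ∑ h ∈ Finset.Icc (-(K : ℤ)) K, c h * e (h * x) := by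
  classical
  have hKC : (K : ℂ) ≠ 0 := by exact_mod_cast hK.ne'
  refine ⟨fun h => (1 / K) * ∑ p ∈ (range K ×ˢ range K).filter
    (fun p => (p.1 : ℤ) - (p.2 : ℤ) = h), e (-(h * u)), fun h => ?_, ?_, fun x => ?_⟩
  · rw [norm_mul]
    have h1 : ‖∑ p ∈ (range K ×ˢ range K).filter
        (fun p => (p.1 : ℤ) - (p.2 : ℤ) = h), e (-(h * u))‖ ≤ K := by
      refine (norm_sum_le _ _).trans ?_
      simp only [norm_e, sum_const, nsmul_eq_mul, mul_one]
      have h2 : ((range K ×ˢ range K).filter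
          (fun p => (p.1 : ℤ) - (p.2 : ℤ) = h)).card ≤ (range K).card := by
        refine card_le_card_of_injOn (fun p => p.1) (fun p hp => ?_) ?_
        · simp only [coe_filter, mem_product, Set.mem_ofPred_eq] at hp
          exact hp.1.1
        · intro p hp p' hp' hpp
          simp only [coe_filter, mem_product, Set.mem_ofPred_eq] at hp hp' hpp
          have := hp.2
          have := hp'.2
          ext
          · exact hpp
          · omega
      rw [card_range] at h2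
      exact_mod_cast h2
    have hKR : (0 : ℝ) < K := by exact_mod_cast hK
    have h3 : ‖(1 / (K : ℂ))‖ = 1 / K := by simp
    rw [h3]
    calc 1 / (K : ℝ) * _ ≤ 1 / (K : ℝ) * K := by gcongr
      _ = 1 := by field_simp
  · have h1 : ((range K ×ˢ range K).filter (fun p => (p.1 : ℤ) - (p.2 : ℤ) = 0)).card = K := by
      have h2 : (range K ×ˢ range K).filter (fun p => (p.1 : ℤ) - (p.2 : ℤ) = 0) =
          (range K).image (fun i => (i, i)) := by
        ext ⟨a, b⟩
        rw [mem_filter, mem_product, mem_image]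
        constructor
        · rintro ⟨⟨h3, h4⟩, h5⟩
          exact ⟨a, h3, by simp only [Prod.mk.injEq, true_and]; simp only at h5; omega⟩
        · rintro ⟨i, hi, h3⟩
          simp only [Prod.mk.injEq] at h3
          obtain ⟨rfl, rfl⟩ := h3
          exact ⟨⟨hi, hi⟩, by simp⟩
      rw [h2, card_image_of_injective _ (fun a b h => (Prod.mk.inj h).1), card_range]
    simp only [Int.cast_zero, zero_mul, neg_zero, e_zero, sum_const, nsmul_eq_mul, mul_one]
    rw [h1]
    field_simp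
  · rw [F_expand]
    have h1 : ∀ p ∈ range K ×ˢ range K, (p.1 : ℤ) - (p.2 : ℤ) ∈ Finset.Icc (-(K : ℤ)) K := by
      intro p hp
      rw [mem_product, mem_range, mem_range] at hp
      rw [Finset.mem_Icc]
      omega
    rw [← sum_fiberwise_of_maps_to h1, mul_sum]
    refine sum_congr rfl fun h _ => ?_
    rw [mul_assoc, sum_mul]
    congr 1
    refine sum_congr rfl fun p hp => ?_
    rw [mem_filter] at hp
    rw [hp.2, ← e_add]
    congr 1
    ring

/-- the number of grid points in an interval -/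
noncomputable def cnt (R : ℕ) (u v : ℝ) : ℝ :=
  (((range R).filter (fun j : ℕ => u ≤ (j / R : ℝ) ∧ (j / R : ℝ) < v)).card : ℝ) / R

lemma g_coef {R : ℕ} (hR : 0 < R) (u v : ℝ) : ∃ c : ℤ → ℂ, (∀ h, ‖c h‖ ≤ 1) ∧
    c 0 = (cnt R u v : ℂ) ∧
    ∀ x, ((g R u v x : ℝ) : ℂ) = ∑ h ∈ Finset.Icc (-(R : ℤ)) R, c h * e (h * x) := by
  classical
  choose c hc1 hc0 hc2 using fun j : ℕ => F_coef hR (j / R : ℝ)
  have hRR : (0 : ℝ) < R := by exact_mod_cast hR
  refine ⟨fun h => ∑ j ∈ (range R).filter (fun j : ℕ => u ≤ (j / R : ℝ) ∧ (j / R : ℝ) < v),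
    (1 / R : ℂ) * c j h, fun h => ?_, ?_, fun x => ?_⟩
  · refine (norm_sum_le _ _).trans ?_
    have h1 : ∀ j ∈ (range R).filter (fun j : ℕ => u ≤ (j / R : ℝ) ∧ (j / R : ℝ) < v),
        ‖(1 / R : ℂ) * c j h‖ ≤ 1 / R := by
      intro j _
      rw [norm_mul]
      have h3 : ‖(1 / (R : ℂ))‖ = 1 / R := by simp
      rw [h3]
      calc 1 / (R : ℝ) * ‖c j h‖ ≤ 1 / R * 1 := by
            gcongr
            exact hc1 j h
        _ = 1 / R := mul_one _
    refine (sum_le_sum h1).trans ?_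
    rw [sum_const, nsmul_eq_mul]
    have h2 : (((range R).filter (fun j : ℕ => u ≤ (j / R : ℝ) ∧ (j / R : ℝ) < v)).card : ℝ) ≤ R := by
      have := card_filter_le (range R) (fun j : ℕ => u ≤ (j / R : ℝ) ∧ (j / R : ℝ) < v)
      rw [card_range] at this
      exact_mod_cast this
    calc _ ≤ (R : ℝ) * (1 / R) := by gcongr
      _ = 1 := by field_simp
  · simp only [hc0, mul_one, sum_const, nsmul_eq_mul]
    unfold cnt
    push_cast
    ring
  · unfold g
    push_cast
    simp only [hc2]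
    simp only [mul_sum, sum_mul]
    rw [sum_comm]
    refine sum_congr rfl fun h _ => sum_congr rfl fun j _ => ?_
    ring

lemma cnt_bounds {R : ℕ} (hR : 0 < R) {u v : ℝ} (hu : 0 ≤ u) (huv : u ≤ v) (hv : v ≤ 1) :
    0 ≤ cnt R u v ∧ cnt R u v ≤ 1 ∧ |cnt R u v - (v - u)| ≤ 1 / R := by
  classical
  have hRR : (0 : ℝ) < R := by exact_mod_cast hR
  have h1 : (range R).filter (fun j : ℕ => u ≤ (j / R : ℝ) ∧ (j / R : ℝ) < v) =
      Finset.Ico ⌈u * R⌉₊ ⌈v * R⌉₊ := by
    ext j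
    rw [mem_filter, mem_range, Finset.mem_Ico, Nat.ceil_le, Nat.lt_ceil, le_div_iff₀ hRR,
      div_lt_iff₀ hRR]
    constructor
    · rintro ⟨_, h2, h3⟩
      exact ⟨h2, h3⟩
    · rintro ⟨h2, h3⟩
      refine ⟨?_, h2, h3⟩
      have : (j : ℝ) < R := by nlinarith
      exact_mod_cast this
  have huv' : u * R ≤ v * R := by gcongr
  have h2 : ((((range R).filter (fun j : ℕ => u ≤ (j / R : ℝ) ∧ (j / R : ℝ) < v)).card : ℕ) : ℝ) =
      (⌈v * R⌉₊ : ℝ) - ⌈u * R⌉₊ := by
    rw [h1, Nat.card_Ico, Nat.cast_sub (Nat.ceil_mono huv')]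
  have a1 := Nat.le_ceil (v * R)
  have a2 := Nat.ceil_lt_add_one (by positivity : 0 ≤ u * R)
  have a3 := Nat.le_ceil (u * R)
  have a4 := Nat.ceil_lt_add_one (le_trans (by positivity : 0 ≤ u * R) huv')
  refine ⟨by unfold cnt; positivity, ?_, ?_⟩
  · unfold cnt
    rw [div_le_one hRR]
    have := card_filter_le (range R) (fun j : ℕ => u ≤ (j / R : ℝ) ∧ (j / R : ℝ) < v)
    rw [card_range] at this
    exact_mod_cast this
  · unfold cnt
    rw [h2]
    have e1 : ((⌈v * R⌉₊ : ℝ) - ⌈u * R⌉₊) / R - (v - u) =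
        (((⌈v * R⌉₊ : ℝ) - v * R) - ((⌈u * R⌉₊ : ℝ) - u * R)) / R := by
      field_simp
      ring
    rw [e1, abs_div, abs_of_pos hRR]
    apply div_le_div_of_nonneg_right _ hRR.le
    rw [abs_le]
    constructor <;> linarith

lemma expandN {N H : ℕ} (f : Fin N → ℝ → ℝ) (c : Fin N → ℤ → ℂ)
    (hc : ∀ i x, ((f i x : ℝ) : ℂ) = ∑ h ∈ Finset.Icc (-(H : ℤ)) H, c i h * e (h * x))
    (y : Fin N → ℝ) : ((∏ i, f i (y i) : ℝ) : ℂ) =
      ∑ h ∈ Fintype.piFinset (fun _ : Fin N => Finset.Icc (-(H : ℤ)) H),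
        (∏ i, c i (h i)) * e (∑ i, (h i : ℝ) * y i) := by
  push_cast
  simp only [hc]
  rw [prod_univ_sum]
  refine sum_congr rfl fun h _ => ?_
  rw [prod_mul_distrib, ← e_sum]

/-- **the test** -/
theorem test {ι : Type*} (T : Finset ι) (N K : ℕ) (hK : 0 < K) (y : ι → Fin N → ℝ) (Δ : ℝ)
    (hΔ0 : 0 ≤ Δ)
    (hΔ : ∀ h : Fin N → ℤ, h ≠ 0 → (∀ i, |h i| ≤ (K : ℤ) ^ 3) →
      ‖∑ t ∈ T, e (∑ i, (h i : ℝ) * y t i)‖ ≤ T.card * Δ)
    (u v : Fin N → ℝ) (hu : ∀ i, 0 ≤ u i) (huv : ∀ i, u i ≤ v i) (hv : ∀ i, v i ≤ 1) :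
    |∑ t ∈ T, ∏ i, ind (u i) (v i) (y t i) - T.card * ∏ i, (v i - u i)| ≤
      T.card * ((2 * (K : ℝ) ^ 3 + 1) ^ N * Δ + N * (7 / K + 10 * Δ)) := by
  classical
  have hKR : (0 : ℝ) < K := by exact_mod_cast hK
  have hK1 : (1 : ℝ) ≤ K := by exact_mod_cast hK
  obtain ⟨R, hR⟩ : ∃ R, R = K ^ 3 := ⟨_, rfl⟩
  have hR0 : 0 < R := by rw [hR]; positivity
  have hRR : (R : ℝ) = (K : ℝ) ^ 3 := by rw [hR]; push_cast; rfl
  have hRp : (0 : ℝ) < R := by exact_mod_cast hR0
  have hTc : (0 : ℝ) ≤ (T.card : ℝ) := Nat.cast_nonneg _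
  have hNN : (0 : ℝ) ≤ N := Nat.cast_nonneg _
  -- the Fejer kernels
  have hF : ∀ (i : Fin N) (a : ℝ), ∑ t ∈ T, F K (y t i - a) ≤ T.card * (1 + 2 * K * Δ) := by
    intro i a
    obtain ⟨c, hc1, hc0, hc2⟩ := F_coef hK a
    have h1 : ((∑ t ∈ T, F K (y t i - a) : ℝ) : ℂ) =
        ∑ h ∈ Finset.Icc (-(K : ℤ)) K, c h * ∑ t ∈ T, e (h * y t i) := by
      push_cast
      simp only [hc2]
      rw [sum_comm]
      refine sum_congr rfl fun h _ => ?_
      rw [mul_sum]
    have h2 : ∀ h ∈ (Finset.Icc (-(K : ℤ)) K).erase 0, ‖c h * ∑ t ∈ T, e (h * y t i)‖ ≤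
        T.card * Δ := by
      intro h hh
      rw [Finset.mem_erase, Finset.mem_Icc] at hh
      have h3 := hΔ (fun j => if j = i then h else 0) (by
        intro h0
        have := congrFun h0 i
        simp only [if_true, Pi.zero_apply] at this
        exact hh.1 this) (by
        intro j
        have hK3 : (K : ℤ) ≤ (K : ℤ) ^ 3 := by
          have : (1 : ℤ) ≤ K := by exact_mod_cast hK
          exact le_self_pow₀ this (by norm_num)
        by_cases hj : j = i
        · rw [if_pos hj]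
          exact (abs_le.2 hh.2).trans hK3
        · rw [if_neg hj, abs_zero]; positivity)
      have h4 : ∀ t, ∑ j, (((if j = i then h else 0 : ℤ)) : ℝ) * y t j = h * y t i := by
        intro t
        rw [sum_eq_single i]
        · rw [if_pos rfl]
        · intro j _ hj
          rw [if_neg hj]; simp
        · intro hi
          exact absurd (mem_univ i) hi
      simp only [h4] at h3
      rw [norm_mul]
      calc _ ≤ 1 * ((T.card : ℝ) * Δ) := mul_le_mul (hc1 h) h3 (norm_nonneg _) zero_le_one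
        _ = _ := one_mul _
    have h0 : (0 : ℤ) ∈ Finset.Icc (-(K : ℤ)) K := by rw [Finset.mem_Icc]; omega
    have h5 : |∑ t ∈ T, F K (y t i - a)| ≤ T.card * (1 + 2 * K * Δ) := by
      rw [← Real.norm_eq_abs, ← Complex.norm_real, h1, ← add_sum_erase _ _ h0]
      refine (norm_add_le _ _).trans ?_
      have h6 : ‖c 0 * ∑ t ∈ T, e (((0 : ℤ) : ℝ) * y t i)‖ ≤ T.card := by
        rw [hc0, one_mul]
        refine (norm_sum_le _ _).trans ?_
        simp [norm_e]
      have h7 : ‖∑ h ∈ (Finset.Icc (-(K : ℤ)) K).erase 0, c h * ∑ t ∈ T, e (h * y t i)‖ ≤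
          2 * K * (T.card * Δ) := by
        refine (norm_sum_le _ _).trans ((sum_le_sum h2).trans ?_)
        rw [sum_const, card_erase_of_mem h0, Int.card_Icc, nsmul_eq_mul]
        have : ((K : ℤ) + 1 - -(K : ℤ)).toNat - 1 = 2 * K := by omega
        rw [this]
        push_cast
        exact le_rfl
      linarith
    exact (le_abs_self _).trans h5
  -- approximation
  have hA : |∑ t ∈ T, ∏ i, ind (u i) (v i) (y t i) - ∑ t ∈ T, ∏ i, g R (u i) (v i) (y t i)| ≤
      T.card * (N * (6 / K + 10 * Δ)) := by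
    rw [← sum_sub_distrib]
    have h1 : ∀ t ∈ T, |∏ i, ind (u i) (v i) (y t i) - ∏ i, g R (u i) (v i) (y t i)| ≤
        ∑ i, w K R (u i) (v i) (y t i) := by
      intro t _
      refine (prod_diff _ _ _ (fun i _ => ind_nonneg _ _ _) (fun i _ => ind_le_one _ _ _)
        (fun i _ => g_nonneg _ _ _ _) (fun i _ => g_le_one hR0 _ _ _)).trans ?_
      exact sum_le_sum fun i _ => appr hK hR0 (hu i) (hv i) _
    refine (abs_sum_le_sum_abs _ _).trans ((sum_le_sum h1).trans ?_)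
    rw [sum_comm]
    have h2 : ∀ i ∈ (univ : Finset (Fin N)), ∑ t ∈ T, w K R (u i) (v i) (y t i) ≤
        T.card * (6 / K + 10 * Δ) := by
      intro i _
      unfold w
      rw [sum_add_distrib, ← mul_sum, sum_add_distrib, sum_const, nsmul_eq_mul]
      have h3 := hF i (u i)
      have h4 := hF i (v i)
      have hpi : π ^ 2 ≤ 10 := by
        have := pi_lt_d2
        nlinarith [pi_pos]
      have h5 : 0 ≤ ∑ t ∈ T, F K (y t i - u i) + ∑ t ∈ T, F K (y t i - v i) :=
        add_nonneg (sum_nonneg fun t _ => F_nonneg _ _) (sum_nonneg fun t _ => F_nonneg _ _)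
      calc (T.card : ℝ) * ((K : ℝ) ^ 2 / R) + π ^ 2 / (4 * K) *
            (∑ t ∈ T, F K (y t i - u i) + ∑ t ∈ T, F K (y t i - v i))
          ≤ (T.card : ℝ) * ((K : ℝ) ^ 2 / R) + 10 / (4 * K) *
            (T.card * (1 + 2 * K * Δ) + T.card * (1 + 2 * K * Δ)) := by gcongr
        _ = T.card * (1 / K + 5 / K + 10 * Δ) := by
            rw [hRR]
            field_simp
            ring
        _ = _ := by ring
    refine (sum_le_sum h2).trans (le_of_eq ?_)
    rw [sum_const, card_univ, Fintype.card_fin, nsmul_eq_mul]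
    ring
  -- expansion
  choose c hc1 hc0 hc2 using fun i : Fin N => g_coef hR0 (u i) (v i)
  have hB : |∑ t ∈ T, ∏ i, g R (u i) (v i) (y t i) - T.card * ∏ i, cnt R (u i) (v i)| ≤
      T.card * ((2 * (K : ℝ) ^ 3 + 1) ^ N * Δ) := by
    have h1 : ((∑ t ∈ T, ∏ i, g R (u i) (v i) (y t i) : ℝ) : ℂ) =
        ∑ h ∈ Fintype.piFinset (fun _ : Fin N => Finset.Icc (-(R : ℤ)) R),
          (∏ i, c i (h i)) * ∑ t ∈ T, e (∑ i, (h i : ℝ) * y t i) := by
      have h2 : ∀ t ∈ T, ((∏ i, g R (u i) (v i) (y t i) : ℝ) : ℂ) =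
          ∑ h ∈ Fintype.piFinset (fun _ : Fin N => Finset.Icc (-(R : ℤ)) R),
          (∏ i, c i (h i)) * e (∑ i, (h i : ℝ) * y t i) :=
        fun t _ => expandN (fun i => g R (u i) (v i)) c hc2 (y t)
      rw [Complex.ofReal_sum, sum_congr rfl h2, sum_comm]
      refine sum_congr rfl fun h _ => ?_
      rw [mul_sum]
    have h0 : (0 : Fin N → ℤ) ∈ Fintype.piFinset (fun _ : Fin N => Finset.Icc (-(R : ℤ)) R) := by
      rw [Fintype.mem_piFinset]
      intro i
      rw [Finset.mem_Icc]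
      simp only [Pi.zero_apply]
      omega
    have h3 : (((∑ t ∈ T, ∏ i, g R (u i) (v i) (y t i) - T.card * ∏ i, cnt R (u i) (v i) : ℝ)) : ℂ) =
        ∑ h ∈ (Fintype.piFinset (fun _ : Fin N => Finset.Icc (-(R : ℤ)) R)).erase 0,
          (∏ i, c i (h i)) * ∑ t ∈ T, e (∑ i, (h i : ℝ) * y t i) := by
      rw [Complex.ofReal_sub, h1, ← add_sum_erase _ _ h0]
      have h4 : (∏ i, c i ((0 : Fin N → ℤ) i)) * ∑ t ∈ T, e (∑ i, (((0 : Fin N → ℤ) i : ℤ) : ℝ) * y t i) =
          ((T.card * ∏ i, cnt R (u i) (v i) : ℝ) : ℂ) := by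
        simp only [Pi.zero_apply, hc0, Int.cast_zero, zero_mul, sum_const_zero, e_zero, sum_const,
          nsmul_eq_mul, mul_one]
        push_cast
        ring
      rw [h4]
      ring
    rw [← Real.norm_eq_abs, ← Complex.norm_real, h3]
    refine (norm_sum_le _ _).trans ?_
    have h5 : ∀ h ∈ (Fintype.piFinset (fun _ : Fin N => Finset.Icc (-(R : ℤ)) R)).erase 0,
        ‖(∏ i, c i (h i)) * ∑ t ∈ T, e (∑ i, (h i : ℝ) * y t i)‖ ≤ T.card * Δ := by
      intro h hh
      rw [Finset.mem_erase, Fintype.mem_piFinset] at hh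
      rw [norm_mul, norm_prod]
      have h6 : ∏ i, ‖c i (h i)‖ ≤ 1 := prod_le_one (fun i _ => norm_nonneg _) fun i _ => hc1 i _
      have h7 := hΔ h hh.1 (fun i => by
        have := abs_le.2 (Finset.mem_Icc.1 (hh.2 i))
        rw [hR] at this
        push_cast at this
        exact this)
      calc _ ≤ 1 * ((T.card : ℝ) * Δ) :=
            mul_le_mul h6 h7 (norm_nonneg _) zero_le_one
        _ = _ := one_mul _
    refine (sum_le_sum h5).trans ?_
    rw [sum_const, nsmul_eq_mul]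
    have h6 : (((Fintype.piFinset (fun _ : Fin N => Finset.Icc (-(R : ℤ)) R)).erase 0).card : ℝ) ≤
        (2 * (K : ℝ) ^ 3 + 1) ^ N := by
      have h7 : ((Fintype.piFinset (fun _ : Fin N => Finset.Icc (-(R : ℤ)) R)).erase 0).card ≤
          (2 * R + 1) ^ N := by
        refine (card_erase_le).trans (le_of_eq ?_)
        rw [Fintype.card_piFinset]
        simp only [Int.card_Icc, prod_const, card_univ, Fintype.card_fin]
        congr 1
        omega
      calc _ ≤ (((2 * R + 1) ^ N : ℕ) : ℝ) := by exact_mod_cast h7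
        _ = _ := by push_cast; rw [hRR]
    calc _ ≤ (2 * (K : ℝ) ^ 3 + 1) ^ N * (T.card * Δ) := by gcongr
      _ = _ := by ring
  -- the main term
  have hC : |∏ i, cnt R (u i) (v i) - ∏ i, (v i - u i)| ≤ N * (1 / K) := by
    refine (prod_diff _ _ _ (fun i _ => (cnt_bounds hR0 (hu i) (huv i) (hv i)).1)
      (fun i _ => (cnt_bounds hR0 (hu i) (huv i) (hv i)).2.1)
      (fun i _ => by linarith [huv i]) (fun i _ => by linarith [hu i, hv i])).trans ?_
    have h1 : ∀ i ∈ (univ : Finset (Fin N)), |cnt R (u i) (v i) - (v i - u i)| ≤ 1 / K := by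
      intro i _
      refine (cnt_bounds hR0 (hu i) (huv i) (hv i)).2.2.trans ?_
      apply one_div_le_one_div_of_le hKR
      rw [hRR]
      exact le_self_pow₀ hK1 (by norm_num)
    refine (sum_le_sum h1).trans (le_of_eq ?_)
    rw [sum_const, card_univ, Fintype.card_fin, nsmul_eq_mul]
  have hC' : |T.card * ∏ i, cnt R (u i) (v i) - T.card * ∏ i, (v i - u i)| ≤
      T.card * (N * (1 / K)) := by
    rw [← mul_sub, abs_mul, abs_of_nonneg hTc]
    gcongr
  have e1 : (T.card : ℝ) * ((2 * (K : ℝ) ^ 3 + 1) ^ N * Δ + N * (7 / K + 10 * Δ)) =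
      T.card * (N * (6 / K + 10 * Δ)) + T.card * ((2 * (K : ℝ) ^ 3 + 1) ^ N * Δ) +
        T.card * (N * (1 / K)) := by ring
  rw [e1]
  rw [abs_le] at hA hB hC' ⊢
  constructor <;> linarith [hA.1, hA.2, hB.1, hB.2, hC'.1, hC'.2]

end Pool.Agent.W5h30.BS
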