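import Pool.Agent.W5h30.BS.Weyl
import Pool.Agent.W5h30.BS.Test
import Pool.Agent.W5h30.BS.Asym

/-!
# The joint distribution of `x r, …, x r ^ N` for random `r` (helper30)
-/

set_option autoImplicit false

namespace Pool.Agent.W5h30.BS

open Finset Filter
open Pool.Agent.Y957.VK (dz)
open Pool.Agent.Y933.KD (e ind)

/-- the classes of the fractional parts of `x r, x r ^ 2, …, x r ^ N`, when the unit interval is
divided into `D` equal intervals -/
noncomputable def cls (x : ℝ) (N D r : ℕ) (i : Fin N) : ℕ :=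
  ⌊(D : ℝ) * Int.fract (x * (r : ℝ) ^ ((i : ℕ) + 1))⌋₊

lemma ind_prod (x : ℝ) (N D r : ℕ) (hD : 1 ≤ D) (a : Fin N → ℕ) :
    ∏ i, ind ((a i : ℝ) / D) (((a i : ℝ) + 1) / D) (x * (r : ℝ) ^ ((i : ℕ) + 1)) =
      if cls x N D r = a then 1 else 0 := by
  classical
  have hDR : (0 : ℝ) < D := by exact_mod_cast hD
  have h1 : ∀ i, ind ((a i : ℝ) / D) (((a i : ℝ) + 1) / D) (x * (r : ℝ) ^ ((i : ℕ) + 1)) =
      if cls x N D r i = a i then 1 else 0 := by
    intro i
    unfold ind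
    refine if_congr ?_ rfl rfl
    unfold cls
    rw [Nat.floor_eq_iff (mul_nonneg hDR.le (Int.fract_nonneg _)), div_le_iff₀ hDR,
      lt_div_iff₀ hDR, mul_comm (D : ℝ)]
  rw [prod_congr rfl fun i _ => h1 i]
  by_cases h : cls x N D r = a
  · rw [if_pos h]
    exact prod_eq_one fun i _ => if_pos (congrFun h i)
  · rw [if_neg h]
    obtain ⟨i, hi⟩ := Function.ne_iff.1 h
    exact prod_eq_zero (mem_univ i) (if_neg hi)

/-- a number which is not a Liouville number -/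
lemma type_of {x : ℝ} (hx : Irrational x) (hL : ¬ Liouville x) : ∃ (τ : ℕ) (C0 : ℝ), 1 ≤ C0 ∧
    ∀ q : ℤ, q ≠ 0 → 1 / (C0 * |(q : ℝ)| ^ τ) ≤ dz (x * q) := by
  unfold Liouville at hL
  push Not at hL
  obtain ⟨n, hn⟩ := hL
  have hdz1 : 0 < dz x := by
    unfold dz
    rw [abs_pos, sub_ne_zero]
    exact hx.ne_int _
  have hpos : ∀ q : ℕ, 1 ≤ q → 1 / (max 1 (1 / dz x) * (q : ℝ) ^ n) ≤ dz (x * q) := by
    intro q hq
    have hqR : (1 : ℝ) ≤ q := by exact_mod_cast hq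
    have hm1 : 1 ≤ max 1 (1 / dz x) := le_max_left _ _
    rcases Nat.eq_or_lt_of_le hq with h1 | h1
    · rw [← h1]
      push_cast
      rw [one_pow, mul_one, mul_one]
      calc 1 / max 1 (1 / dz x) ≤ 1 / (1 / dz x) :=
            one_div_le_one_div_of_le (by positivity) (le_max_right _ _)
        _ = dz x := one_div_one_div _
    · have h2 := hn (round (x * q)) q (by exact_mod_cast h1) (by
        intro h3
        exact hx ⟨(round (x * q) : ℚ) / (q : ℚ), by push_cast; push_cast at h3; exact h3.symm⟩)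
      have h3 : dz (x * q) = q * |x - (round (x * q) : ℤ) / ((q : ℤ) : ℝ)| := by
        unfold dz
        have h4 : x * q - (round (x * q) : ℤ) = q * (x - (round (x * q) : ℤ) / ((q : ℤ) : ℝ)) := by
          have : (q : ℝ) ≠ 0 := by positivity
          push_cast
          field_simp
        rw [h4, abs_mul, abs_of_nonneg (by positivity : (0 : ℝ) ≤ q)]
      rw [h3]
      push_cast at h2 ⊢
      calc 1 / (max 1 (1 / dz x) * (q : ℝ) ^ n) ≤ 1 / (q : ℝ) ^ n := by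
            apply one_div_le_one_div_of_le (by positivity)
            exact le_mul_of_one_le_left (by positivity) hm1
        _ ≤ |x - (round (x * q)) / (q : ℝ)| := h2
        _ ≤ _ := le_mul_of_one_le_left (abs_nonneg _) hqR
  refine ⟨n, max 1 (1 / dz x), le_max_left _ _, fun q hq => ?_⟩
  rcases lt_trichotomy q 0 with h1 | h1 | h1
  · obtain ⟨m, rfl⟩ : ∃ m : ℕ, q = -(m : ℤ) := ⟨q.natAbs, by omega⟩
    have h2 := hpos m (by omega)
    have h3 : dz (x * ((-(m : ℤ) : ℤ) : ℝ)) = dz (x * m) := by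
      have e1 : x * ((-(m : ℤ) : ℤ) : ℝ) = 0 - x * m := by push_cast; ring
      have e2 : x * (m : ℝ) = 0 - x * ((-(m : ℤ) : ℤ) : ℝ) := by push_cast; ring
      have e0 : dz 0 = 0 := by unfold dz; simp
      have h4 := dz_sub_le 0 (x * m)
      have h5 := dz_sub_le 0 (x * ((-(m : ℤ) : ℤ) : ℝ))
      rw [← e1, e0, zero_add] at h4
      rw [← e2, e0, zero_add] at h5
      exact le_antisymm h4 h5
    rw [h3]
    push_cast
    rw [abs_neg, Nat.abs_cast]
    exact h2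
  · exact absurd h1 hq
  · obtain ⟨m, rfl⟩ : ∃ m : ℕ, q = (m : ℤ) := ⟨q.natAbs, by omega⟩
    have h2 := hpos m (by omega)
    push_cast
    rw [Nat.abs_cast]
    exact h2

/-- one box -/
theorem box : ∃ η : ℝ, 0 < η ∧ ∀ x : ℝ, Irrational x → ¬ Liouville x →
    ∃ R₀ : ℕ, ∀ R : ℕ, R₀ ≤ R → 1 ≤ R ∧ 1 ≤ Real.log R ∧ 3 ≤ Real.exp (√(Real.log R)) ∧
      2 * √(Real.log R) ≤ Real.log R ∧
      ∀ N D : ℕ, (N : ℝ) ≤ (Real.log R) ^ η → (D : ℝ) ≤ Real.exp ((Real.log R) ^ η) →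
      ((D : ℝ) ^ N ≤ Real.exp (√(Real.log R))) ∧
      ∀ u v : Fin N → ℝ, (∀ i, 0 ≤ u i) → (∀ i, u i ≤ v i) → (∀ i, v i ≤ 1) →
      |∑ r ∈ Finset.Ioc 0 R, ∏ i, ind (u i) (v i) (x * (r : ℝ) ^ ((i : ℕ) + 1)) -
        R * ∏ i, (v i - u i)| ≤ R * (2 * Real.exp (-(3 * √(Real.log R)))) := by
  obtain ⟨C, hC⟩ := weyl
  obtain ⟨η, hη⟩ : ∃ η : ℝ, η = 1 / (32 * ((C : ℝ) + 1)) := ⟨_, rfl⟩
  have hC0' : (0 : ℝ) ≤ C := Nat.cast_nonneg C
  have hη0 : 0 < η := by rw [hη]; positivity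
  have hη1 : η ≤ 1 / 32 := by
    rw [hη]
    apply one_div_le_one_div_of_le (by norm_num)
    linarith
  have hη2 : C * η ≤ 1 / 2 := by
    rw [hη, mul_one_div, div_le_iff₀ (by positivity)]
    linarith
  refine ⟨η, hη0, fun x hx hL => ?_⟩
  obtain ⟨τ, C0, hC0, hty⟩ := type_of hx hL
  obtain ⟨L0, hL0⟩ := eventually_atTop.1 (asym C τ C0 η hη0 hη1 hη2)
  obtain ⟨R0, hR0⟩ := eventually_atTop.1
    ((Real.tendsto_log_atTop.comp tendsto_natCast_atTop_atTop).eventually_ge_atTop L0)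
  refine ⟨max R0 1, fun R hR => ?_⟩
  have hR1 : 1 ≤ R := le_of_max_le_right hR
  have hRR : (1 : ℝ) ≤ R := by exact_mod_cast hR1
  have hRp : (0 : ℝ) < R := by linarith
  obtain ⟨L, hLdef⟩ : ∃ L, L = Real.log R := ⟨_, rfl⟩
  have hLL : L0 ≤ L := by rw [hLdef]; exact hR0 R (le_of_max_le_left hR)
  have hRL : (R : ℝ) = Real.exp L := by rw [hLdef, Real.exp_log hRp]
  obtain ⟨a1, a2, a3, a4, a5, a6, a7, a8, a9, a10, a11, a12, a13, a14, a15, a16⟩ := hL0 L hLL
  rw [← hLdef]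
  refine ⟨hR1, a1, a16, a15, fun N D hN hD => ⟨?_, ?_⟩⟩
  · calc (D : ℝ) ^ N ≤ (Real.exp (L ^ η)) ^ N := pow_le_pow_left₀ (Nat.cast_nonneg _) hD N
      _ = Real.exp (N * L ^ η) := by rw [← Real.exp_nat_mul]
      _ ≤ Real.exp (√L) := by
          apply Real.exp_le_exp.2
          refine le_trans ?_ a14
          have : 0 ≤ L ^ η := by positivity
          gcongr
  intro u v hu huv hv
  have hsq0 : 0 ≤ √L := Real.sqrt_nonneg L
  have hLη : 0 ≤ L ^ η := by positivity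
  -- the parameters
  obtain ⟨K, hK⟩ : ∃ K : ℕ, K = ⌈Real.exp (4 * √L)⌉₊ := ⟨_, rfl⟩
  have hK1 : Real.exp (4 * √L) ≤ K := by rw [hK]; exact Nat.le_ceil _
  have hKp : (0 : ℝ) < K := lt_of_lt_of_le (Real.exp_pos _) hK1
  have hK0 : 0 < K := by exact_mod_cast hKp
  have hK2 : (K : ℝ) ≤ Real.exp (5 * √L) := by
    have h1 : (K : ℝ) < Real.exp (4 * √L) + 1 := by
      rw [hK]; exact Nat.ceil_lt_add_one (Real.exp_pos _).le
    have h2 : Real.exp (5 * √L) = Real.exp (4 * √L) * Real.exp (√L) := by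
      rw [← Real.exp_add]; congr 1; ring
    have h3 : 1 ≤ Real.exp (4 * √L) := Real.one_le_exp (by positivity)
    rw [h2]
    nlinarith
  obtain ⟨U, hU⟩ : ∃ U : ℕ, U = ⌊Real.exp (L / (4 * (τ + 1)))⌋₊ := ⟨_, rfl⟩
  have hτ : (0 : ℝ) ≤ τ := Nat.cast_nonneg τ
  have hUle : (U : ℝ) ≤ Real.exp (L / (4 * (τ + 1))) := by
    rw [hU]; exact Nat.floor_le (Real.exp_pos _).le
  have hUge : Real.exp (L / (8 * (τ + 1))) ≤ U := by
    have h1 : Real.exp (L / (4 * (τ + 1))) < (U : ℝ) + 1 := by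
      rw [hU]; exact Nat.lt_floor_add_one _
    have h2 : Real.exp (L / (4 * ((τ : ℝ) + 1))) = Real.exp (L / (8 * (τ + 1))) *
        Real.exp (L / (8 * (τ + 1))) := by
      rw [← Real.exp_add]; congr 1; field_simp; ring
    rw [h2] at h1
    nlinarith
  have hUp : (0 : ℝ) < U := lt_of_lt_of_le (Real.exp_pos _) hUge
  have hU1 : 1 ≤ U := by
    have : 0 < U := by exact_mod_cast hUp
    omega
  have hlogU : L / (8 * (τ + 1)) ≤ Real.log U := by
    rw [Real.le_log_iff_exp_le hUp]; exact hUge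
  obtain ⟨P, hP⟩ : ∃ P : ℝ, P = (N : ℝ) + 4 * τ + 7 := ⟨_, rfl⟩
  have hP0 : 0 < P := by rw [hP]; positivity
  have hP2 : P ≤ 2 * L ^ η := by rw [hP]; linarith
  have h34 : 0 ≤ L ^ (3 / 4 : ℝ) := by positivity
  obtain ⟨E, hE⟩ : ∃ E : ℝ, E = Real.exp (-(L ^ (3 / 4 : ℝ))) := ⟨_, rfl⟩
  -- the exponential sums
  have hA : Real.exp (C * P ^ C) * C0 * ((K : ℝ) ^ 3) ^ τ *
      (U : ℝ) ^ (-(1 / (8 * P ^ 6)) : ℝ) ≤ E := by
    have b1 : Real.exp (C * P ^ C) ≤ Real.exp (L ^ (3 / 4 : ℝ)) := by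
      apply Real.exp_le_exp.2
      refine le_trans ?_ a3
      gcongr
    have b2 : ((K : ℝ) ^ 3) ^ τ ≤ Real.exp (L ^ (3 / 4 : ℝ)) := by
      calc ((K : ℝ) ^ 3) ^ τ ≤ ((Real.exp (5 * √L)) ^ 3) ^ τ := by gcongr
        _ = Real.exp (15 * τ * √L) := by
            rw [← pow_mul, ← Real.exp_nat_mul]; congr 1; push_cast; ring
        _ ≤ _ := Real.exp_le_exp.2 a5
    have b3 : (U : ℝ) ^ (-(1 / (8 * P ^ 6)) : ℝ) ≤ Real.exp (-(4 * L ^ (3 / 4 : ℝ))) := by
      rw [Real.rpow_def_of_pos hUp]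
      apply Real.exp_le_exp.2
      have c1 : 4 * L ^ (3 / 4 : ℝ) ≤ Real.log U * (1 / (8 * P ^ 6)) := by
        refine a6.trans ?_
        have : 0 ≤ L / (8 * ((τ : ℝ) + 1)) := by positivity
        gcongr
      rw [mul_neg]
      exact neg_le_neg c1
    rw [hE]
    calc _ ≤ Real.exp (L ^ (3 / 4 : ℝ)) * Real.exp (L ^ (3 / 4 : ℝ)) * Real.exp (L ^ (3 / 4 : ℝ)) *
          Real.exp (-(4 * L ^ (3 / 4 : ℝ))) := by gcongr
      _ = Real.exp (-(L ^ (3 / 4 : ℝ))) := by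
          rw [← Real.exp_add, ← Real.exp_add, ← Real.exp_add]; congr 1; ring
  have hB : 2 * ((U ^ (τ + 1) : ℕ) : ℝ) ^ 2 ≤ R * E := by
    have b1 : ((U ^ (τ + 1) : ℕ) : ℝ) ^ 2 ≤ Real.exp (L / 2) := by
      push_cast
      calc ((U : ℝ) ^ (τ + 1)) ^ 2 ≤ ((Real.exp (L / (4 * (τ + 1)))) ^ (τ + 1)) ^ 2 := by gcongr
        _ = Real.exp (L / 2) := by
            rw [← pow_mul, ← Real.exp_nat_mul]; congr 1; push_cast; field_simp; ring
    have b2 : (2 : ℝ) ≤ Real.exp 1 := by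
      have := Real.add_one_le_exp (1 : ℝ)
      linarith
    rw [hRL, hE, ← Real.exp_add]
    calc 2 * ((U ^ (τ + 1) : ℕ) : ℝ) ^ 2 ≤ Real.exp 1 * Real.exp (L / 2) := by gcongr
      _ = Real.exp (1 + L / 2) := by rw [← Real.exp_add]
      _ ≤ _ := by apply Real.exp_le_exp.2; linarith
  have hcard : (Finset.Ioc 0 R).card = R := by rw [Nat.card_Ioc]; omega
  have hE0 : 0 ≤ E := by rw [hE]; positivity
  have key := test (Finset.Ioc 0 R) N K hK0 (fun (r : ℕ) (i : Fin N) => x * (r : ℝ) ^ ((i : ℕ) + 1))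
    (2 * E) (by positivity) (by
      intro h hh hhK
      have h1 := hC τ x C0 hC0 hty N h ((K : ℝ) ^ 3) R U hh (fun i => by exact_mod_cast hhK i) hU1
      rw [hcard]
      rw [← hP] at h1
      refine h1.trans ?_
      calc _ ≤ (R : ℝ) * E + R * E := by
            refine add_le_add (mul_le_mul_of_nonneg_left hA hRp.le) hB
        _ = _ := by ring) u v hu huv hv
  rw [hcard] at key
  refine key.trans (mul_le_mul_of_nonneg_left ?_ hRp.le)
  have c1 : (2 * (K : ℝ) ^ 3 + 1) ^ N ≤ Real.exp (L ^ (3 / 4 : ℝ) / 2) := by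
    have d1 : 2 * (K : ℝ) ^ 3 + 1 ≤ Real.exp (16 * √L) := by
      have d2 : (1 : ℝ) ≤ K := by exact_mod_cast hK0
      have d3 : (1 : ℝ) ≤ (K : ℝ) ^ 3 := one_le_pow₀ d2
      calc 2 * (K : ℝ) ^ 3 + 1 ≤ 3 * (K : ℝ) ^ 3 := by linarith
        _ ≤ Real.exp (√L) * (Real.exp (5 * √L)) ^ 3 := by gcongr
        _ = Real.exp (16 * √L) := by
            rw [← Real.exp_nat_mul, ← Real.exp_add]; congr 1; push_cast; ring
    calc (2 * (K : ℝ) ^ 3 + 1) ^ N ≤ (Real.exp (16 * √L)) ^ N := by gcongr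
      _ = Real.exp (N * (16 * √L)) := by rw [← Real.exp_nat_mul]
      _ ≤ _ := by
          apply Real.exp_le_exp.2
          refine le_trans ?_ a10
          rw [mul_comm]
          gcongr
  have c2 : (2 * (K : ℝ) ^ 3 + 1) ^ N * (2 * E) ≤ Real.exp (-(3 * √L)) := by
    have b2 : (2 : ℝ) ≤ Real.exp 1 := by
      have := Real.add_one_le_exp (1 : ℝ)
      linarith
    calc _ ≤ Real.exp (L ^ (3 / 4 : ℝ) / 2) * (Real.exp 1 * E) := by gcongr
      _ = Real.exp (1 - L ^ (3 / 4 : ℝ) / 2) := by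
          rw [hE, ← Real.exp_add, ← Real.exp_add]; congr 1; ring
      _ ≤ _ := by apply Real.exp_le_exp.2; linarith
  have c3 : (N : ℝ) * (7 / K + 10 * (2 * E)) ≤ Real.exp (-(3 * √L)) := by
    have d1 : 7 / (K : ℝ) ≤ 7 * Real.exp (-(4 * √L)) := by
      rw [Real.exp_neg, ← div_eq_mul_inv]
      apply div_le_div_of_nonneg_left (by norm_num) (Real.exp_pos _) hK1
    have d2 : E ≤ Real.exp (-(4 * √L)) := by
      rw [hE]
      apply Real.exp_le_exp.2
      linarith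
    calc (N : ℝ) * (7 / K + 10 * (2 * E)) ≤ L ^ η * (7 * Real.exp (-(4 * √L)) +
          10 * (2 * Real.exp (-(4 * √L)))) := by gcongr
      _ = (27 * L ^ η) * Real.exp (-(4 * √L)) := by ring
      _ ≤ Real.exp (√L) * Real.exp (-(4 * √L)) := by gcongr
      _ = _ := by rw [← Real.exp_add]; congr 1; ring
  linarith

/-- **the joint distribution in total variation** -/
theorem main : ∃ η : ℝ, 0 < η ∧ ∀ x : ℝ, Irrational x → ¬ Liouville x →
    ∃ R₀ : ℕ, ∀ R : ℕ, R₀ ≤ R → ∀ N D : ℕ, (N : ℝ) ≤ (Real.log R) ^ η → 1 ≤ D →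
      (D : ℝ) ≤ Real.exp ((Real.log R) ^ η) →
      ∀ A : Finset (Fin N → ℕ), (∀ a ∈ A, ∀ i, a i < D) →
      |(((Finset.Icc 2 R).filter (fun r => cls x N D r ∈ A)).card : ℝ) -
        R * (A.card / (D : ℝ) ^ N)| ≤ R * Real.exp (-√(Real.log R)) := by
  classical
  obtain ⟨η, hη, h⟩ := box
  refine ⟨η, hη, fun x hx hL => ?_⟩
  obtain ⟨R₀, hR₀⟩ := h x hx hL
  refine ⟨R₀, fun R hR N D hN hD1 hD A hA => ?_⟩
  obtain ⟨hR1, b1, b2, b3, hbox⟩ := hR₀ R hR
  obtain ⟨hDN, hbox⟩ := hbox N D hN hD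
  have hDR : (1 : ℝ) ≤ D := by exact_mod_cast hD1
  have hDp : (0 : ℝ) < D := by linarith
  have hRR : (1 : ℝ) ≤ R := by exact_mod_cast hR1
  have hRp : (0 : ℝ) < R := by linarith
  obtain ⟨L, hLdef⟩ : ∃ L, L = Real.log R := ⟨_, rfl⟩
  rw [← hLdef] at b1 b2 b3 hbox hDN ⊢
  have hRL : (R : ℝ) = Real.exp L := by rw [hLdef, Real.exp_log hRp]
  -- one class
  have h1 : ∀ a ∈ A, |((((Finset.Ioc 0 R).filter (fun r => cls x N D r = a)).card : ℕ) : ℝ) -
      R * (1 / (D : ℝ) ^ N)| ≤ R * (2 * Real.exp (-(3 * √L))) := by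
    intro a ha
    have h2 := hbox (fun i => (a i : ℝ) / D) (fun i => ((a i : ℝ) + 1) / D)
      (fun i => by positivity) (fun i => by gcongr; linarith) (fun i => by
        rw [div_le_one hDp]
        have : a i + 1 ≤ D := hA a ha i
        exact_mod_cast this)
    have e1 : ∑ r ∈ Finset.Ioc 0 R, ∏ i, ind ((a i : ℝ) / D) (((a i : ℝ) + 1) / D)
        (x * (r : ℝ) ^ ((i : ℕ) + 1)) =
        (((Finset.Ioc 0 R).filter (fun r => cls x N D r = a)).card : ℝ) := by
      rw [sum_congr rfl fun r _ => ind_prod x N D r hD1 a, Finset.card_filter]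
      push_cast
      rfl
    have e2 : ∏ i : Fin N, (((a i : ℝ) + 1) / D - (a i : ℝ) / D) = 1 / (D : ℝ) ^ N := by
      have : ∀ i : Fin N, ((a i : ℝ) + 1) / D - (a i : ℝ) / D = 1 / D := by
        intro i; field_simp; ring
      rw [prod_congr rfl fun i _ => this i, prod_const, card_univ, Fintype.card_fin, one_div_pow]
    rw [e1, e2] at h2
    exact h2
  have hAc : (A.card : ℝ) ≤ (D : ℝ) ^ N := by
    have h2 : A ⊆ Fintype.piFinset (fun _ : Fin N => range D) := by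
      intro a ha
      rw [Fintype.mem_piFinset]
      intro i
      rw [mem_range]
      exact hA a ha i
    have h3 := card_le_card h2
    rw [Fintype.card_piFinset] at h3
    simp only [card_range, prod_const, card_univ, Fintype.card_fin] at h3
    exact_mod_cast h3
  have h2 : ((((Finset.Ioc 0 R).filter (fun r => cls x N D r ∈ A)).card : ℕ) : ℝ) =
      ∑ a ∈ A, (((Finset.Ioc 0 R).filter (fun r => cls x N D r = a)).card : ℝ) := by
    have h3 : ((Finset.Ioc 0 R).filter (fun r => cls x N D r ∈ A)).card =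
        ∑ a ∈ A, ((Finset.Ioc 0 R).filter (fun r => cls x N D r = a)).card := by
      have h4 : (Finset.Ioc 0 R).filter (fun r => cls x N D r ∈ A) =
          A.biUnion (fun a => (Finset.Ioc 0 R).filter (fun r => cls x N D r = a)) := by
        ext r
        simp only [mem_filter, mem_biUnion]
        constructor
        · rintro ⟨h5, h6⟩
          exact ⟨_, h6, h5, rfl⟩
        · rintro ⟨a, h5, h6, h7⟩
          exact ⟨h6, h7 ▸ h5⟩
      rw [h4, card_biUnion]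
      intro a _ b _ hab
      rw [Function.onFun, Finset.disjoint_left]
      intro r hr hr'
      rw [mem_filter] at hr hr'
      exact hab (hr.2.symm.trans hr'.2)
    rw [h3]
    push_cast
    rfl
  have h3 : |((((Finset.Ioc 0 R).filter (fun r => cls x N D r ∈ A)).card : ℕ) : ℝ) -
      R * (A.card / (D : ℝ) ^ N)| ≤ Real.exp (√L) * (R * (2 * Real.exp (-(3 * √L)))) := by
    have e1 : (R : ℝ) * (A.card / (D : ℝ) ^ N) = ∑ a ∈ A, (R : ℝ) * (1 / (D : ℝ) ^ N) := by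
      rw [sum_const, nsmul_eq_mul]; ring
    rw [h2, e1, ← sum_sub_distrib]
    refine (abs_sum_le_sum_abs _ _).trans ((sum_le_sum h1).trans ?_)
    rw [sum_const, nsmul_eq_mul]
    exact mul_le_mul_of_nonneg_right (hAc.trans hDN) (by positivity)
  -- the base `1`
  have h4 : |(((Finset.Icc 2 R).filter (fun r => cls x N D r ∈ A)).card : ℝ) -
      (((Finset.Ioc 0 R).filter (fun r => cls x N D r ∈ A)).card : ℝ)| ≤ 1 := by
    have h5 : (Finset.Icc 2 R).filter (fun r => cls x N D r ∈ A) ⊆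
        (Finset.Ioc 0 R).filter (fun r => cls x N D r ∈ A) := by
      intro r hr
      rw [mem_filter, Finset.mem_Icc] at hr
      rw [mem_filter, Finset.mem_Ioc]
      exact ⟨⟨by omega, hr.1.2⟩, hr.2⟩
    have h6 : (Finset.Ioc 0 R).filter (fun r => cls x N D r ∈ A) ⊆
        insert 1 ((Finset.Icc 2 R).filter (fun r => cls x N D r ∈ A)) := by
      intro r hr
      rw [mem_filter, Finset.mem_Ioc] at hr
      rw [mem_insert, mem_filter, Finset.mem_Icc]
      by_cases h7 : r = 1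
      · exact Or.inl h7
      · exact Or.inr ⟨⟨by omega, hr.1.2⟩, hr.2⟩
    have h7 : (((Finset.Icc 2 R).filter (fun r => cls x N D r ∈ A)).card : ℝ) ≤
        (((Finset.Ioc 0 R).filter (fun r => cls x N D r ∈ A)).card : ℝ) := by
      exact_mod_cast card_le_card h5
    have h8 : (((Finset.Ioc 0 R).filter (fun r => cls x N D r ∈ A)).card : ℝ) ≤
        (((Finset.Icc 2 R).filter (fun r => cls x N D r ∈ A)).card : ℝ) + 1 := by
      exact_mod_cast (card_le_card h6).trans (card_insert_le _ _)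
    rw [abs_le]
    constructor <;> linarith
  have h5 : 1 ≤ R * Real.exp (-(2 * √L)) := by
    rw [hRL, ← Real.exp_add]
    exact Real.one_le_exp (by linarith)
  have h6 : Real.exp (√L) * (R * (2 * Real.exp (-(3 * √L)))) = 2 * (R * Real.exp (-(2 * √L))) := by
    have : Real.exp (-(2 * √L)) = Real.exp (√L) * Real.exp (-(3 * √L)) := by
      rw [← Real.exp_add]; congr 1; ring
    rw [this]; ring
  have h7 : 3 * (R * Real.exp (-(2 * √L))) ≤ R * Real.exp (-√L) := by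
    have : Real.exp (-√L) = Real.exp (√L) * Real.exp (-(2 * √L)) := by
      rw [← Real.exp_add]; congr 1; ring
    rw [this]
    have h8 : 0 < R * Real.exp (-(2 * √L)) := by positivity
    nlinarith
  rw [h6] at h3
  rw [abs_le] at h3 h4 ⊢
  constructor <;> linarith [h3.1, h3.2, h4.1, h4.2]

end Pool.Agent.W5h30.BS
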