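import Pool.Agent.Y957.VK.Triv
import Pool.Agent.Y235.VK.Hol
import Pool.Agent.Y331.VK.Lin
import Pool.Agent.Y950.VK.Cnt
import Pool.Agent.Y911.VK.Cond
import Pool.Agent.Y901.VK.Vmvt
import Pool.Agent.Y309.VK.DA
import Pool.Agent.Y93.VK.DB

/-!
# Bilinear Weyl sums from Vinogradov's mean value theorem (helper30)
-/

set_option autoImplicit false

namespace Pool.Agent.W5h30.BS

open Finset
open Pool.Agent.Y957.VK (WJ TT J S_VMVT S_DBL)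

theorem vmvt : S_VMVT := Pool.Agent.Y901.VK.vmvt
  (Pool.Agent.Y957.VK.rec_of Pool.Agent.Y235.VK.hol (Pool.Agent.Y950.VK.cnt Pool.Agent.Y331.VK.lin))
  Pool.Agent.Y911.VK.cond

theorem dbl : S_DBL := Pool.Agent.Y957.VK.dbl_of Pool.Agent.Y309.VK.da Pool.Agent.Y93.VK.db

/-- the bound for the bilinear sum in terms of the factors -/
theorem tt_pow : ∃ C : ℕ, ∀ (r m M : ℕ) (α : ℕ → ℝ) (E : ℝ), 2 ≤ r → 1 ≤ M → 0 ≤ E →
    ∏ j ∈ Finset.Icc 1 r, WJ (r ^ 2 + r * m) M j (α j) ≤ E * (M : ℝ) ^ (r * (r + 1)) →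
    ‖TT r M α‖ ^ (4 * (r ^ 2 + r * m) ^ 2) ≤ Real.exp (2 * C * ((r : ℝ) + m) ^ C) * E *
      (M : ℝ) ^ (8 * ((r ^ 2 + r * m : ℕ) : ℝ) ^ 2 + r * (r + 1) * (1 - 1 / (r : ℝ)) ^ m) := by
  obtain ⟨C, hC⟩ := vmvt
  refine ⟨C, fun r m M α E hr hM hE hprod => ?_⟩
  obtain ⟨s, hs⟩ : ∃ s, s = r ^ 2 + r * m := ⟨_, rfl⟩
  have hsR : (s : ℝ) = (r : ℝ) ^ 2 + r * m := by rw [hs]; push_cast; rfl
  have hs1 : 1 ≤ s := by rw [hs]; nlinarith
  have hM0 : (0 : ℝ) < M := by exact_mod_cast hM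
  have h1 := dbl s r M α hs1 (by omega) hM
  have h2 := hC r m M hr hM
  rw [← hs] at h2 hprod ⊢
  refine h1.trans ?_
  obtain ⟨ε, hε⟩ : ∃ ε, ε = (1 - 1 / (r : ℝ)) ^ m := ⟨_, rfl⟩
  rw [← hε] at h2 ⊢
  have hJ0 : (0 : ℝ) ≤ J s r M := Nat.cast_nonneg _
  have h3 : (J s r M : ℝ) ^ 2 ≤ Real.exp (2 * C * ((r : ℝ) + m) ^ C) *
      (M : ℝ) ^ (4 * (s : ℝ) - r * (r + 1) + r * (r + 1) * ε) := by
    calc (J s r M : ℝ) ^ 2 ≤ (Real.exp (C * ((r : ℝ) + m) ^ C) *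
          (M : ℝ) ^ (2 * ((r : ℝ) ^ 2 + r * m) - r * (r + 1) / 2 + r * (r + 1) / 2 * ε : ℝ)) ^ 2 :=
          pow_le_pow_left₀ hJ0 h2 2
      _ = _ := by
          rw [mul_pow, ← Real.exp_nat_mul, ← Real.rpow_mul_natCast hM0.le, hsR]
          congr 2
          · push_cast; ring
          · push_cast; ring
  have h4 : 4 * s ≤ 8 * s ^ 2 := by nlinarith
  calc (M : ℝ) ^ (8 * s ^ 2 - 4 * s) * (J s r M : ℝ) ^ 2 * ∏ j ∈ Finset.Icc 1 r, WJ s M j (α j)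
      ≤ (M : ℝ) ^ (8 * s ^ 2 - 4 * s) * (Real.exp (2 * C * ((r : ℝ) + m) ^ C) *
        (M : ℝ) ^ (4 * (s : ℝ) - r * (r + 1) + r * (r + 1) * ε)) *
        (E * (M : ℝ) ^ (r * (r + 1))) := by
        refine (mul_le_mul_of_nonneg_left hprod (by positivity)).trans ?_
        exact mul_le_mul_of_nonneg_right (mul_le_mul_of_nonneg_left h3 (by positivity))
          (by positivity)
    _ = Real.exp (2 * C * ((r : ℝ) + m) ^ C) * E * ((M : ℝ) ^ (8 * s ^ 2 - 4 * s) *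
        (M : ℝ) ^ (4 * (s : ℝ) - r * (r + 1) + r * (r + 1) * ε) * (M : ℝ) ^ (r * (r + 1))) := by
        ring
    _ = _ := by
        congr 1
        rw [← Real.rpow_natCast (M : ℝ) (8 * s ^ 2 - 4 * s),
          ← Real.rpow_natCast (M : ℝ) (r * (r + 1)), ← Real.rpow_add hM0, ← Real.rpow_add hM0]
        congr 1
        rw [Nat.cast_sub h4]
        push_cast
        ring

/-- extraction of the root -/
lemma root_le {X K B : ℝ} {k : ℕ} (hk : k ≠ 0) (hB : 0 ≤ B) (hK : 1 ≤ K)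
    (h : X ^ k ≤ K * B ^ k) : X ≤ K * B := by
  refine le_of_pow_le_pow_left₀ hk (by positivity) (h.trans ?_)
  rw [mul_pow]
  exact mul_le_mul_of_nonneg_right (le_self_pow₀ hK hk) (by positivity)

end Pool.Agent.W5h30.BS
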