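import Pool.Agent.W5h30.BS.Wj
import Pool.Agent.W5h30.BS.Tn
import Pool.Agent.Y933.KD.Fej

/-!
# Exponential sums of polynomials of growing degree (helper30)
-/

set_option autoImplicit false

namespace Pool.Agent.W5h30.BS

open Finset Polynomial
open Pool.Agent.Y957.VK (WJ TT dz)
open Pool.Agent.Y933.KD (e norm_e e_add)

lemma tt_eq (r M : ℕ) (α : ℕ → ℝ) : TT r M α = ∑ x ∈ Finset.Icc 1 M, ∑ y ∈ Finset.Icc 1 M,
    e (∑ j ∈ Finset.Icc 1 r, α j * ((x : ℝ) * y) ^ j) := by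
  unfold TT e
  refine sum_congr rfl fun x _ => sum_congr rfl fun y _ => ?_
  congr 1
  push_cast
  ring

lemma shift_one (f : ℕ → ℝ) (N N' h : ℕ) (hNN : N ≤ N') :
    ‖∑ n ∈ Finset.Ioc N N', e (f n) - ∑ n ∈ Finset.Ioc N N', e (f (n + h))‖ ≤ 2 * h := by
  obtain ⟨g, hg⟩ : ∃ g : ℕ → ℂ, ∀ n, g n = e (f n) := ⟨_, fun _ => rfl⟩
  simp only [← hg]
  have hb : ∀ a b : ℕ, ‖∑ n ∈ Finset.Ioc a (a + b), g n‖ ≤ b := by
    intro a b
    refine (norm_sum_le _ _).trans ?_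
    have h1 : ∀ n ∈ Finset.Ioc a (a + b), ‖g n‖ ≤ 1 := by
      intro n hn
      rw [hg, norm_e]
    refine (Finset.sum_le_sum h1).trans ?_
    simp
  have h1 : ∑ n ∈ Finset.Ioc N N', g (n + h) = ∑ n ∈ Finset.Ioc (N + h) (N' + h), g n := by
    rw [← Finset.map_add_right_Ioc, Finset.sum_map]
    rfl
  have h2 : ∑ n ∈ Finset.Ioc N N', g n + ∑ n ∈ Finset.Ioc N' (N' + h), g n =
      ∑ n ∈ Finset.Ioc N (N + h), g n + ∑ n ∈ Finset.Ioc (N + h) (N' + h), g n := by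
    rw [Finset.sum_Ioc_consecutive g hNN (by omega),
      Finset.sum_Ioc_consecutive g (by omega) (by omega)]
  have h3 : ∑ n ∈ Finset.Ioc N N', g n - ∑ n ∈ Finset.Ioc N N', g (n + h) =
      ∑ n ∈ Finset.Ioc N (N + h), g n - ∑ n ∈ Finset.Ioc N' (N' + h), g n := by
    rw [h1]
    linear_combination h2
  rw [h3]
  refine (norm_sub_le _ _).trans ?_
  linarith [hb N h, hb N' h]

/-- the shift by products -/
lemma shift (f : ℕ → ℝ) (N N' M : ℕ) (hNN : N ≤ N') (hM : 1 ≤ M) (B : ℝ)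
    (hB : ∀ n ∈ Finset.Ioc N N', ‖∑ x ∈ Finset.Icc 1 M, ∑ y ∈ Finset.Icc 1 M,
      e (f (n + x * y))‖ ≤ (M : ℝ) ^ 2 * B) :
    ‖∑ n ∈ Finset.Ioc N N', e (f n)‖ ≤ ((N' - N : ℕ) : ℝ) * B + 2 * (M : ℝ) ^ 2 := by
  obtain ⟨S, hS⟩ : ∃ S, S = ∑ n ∈ Finset.Ioc N N', e (f n) := ⟨_, rfl⟩
  rw [← hS]
  have hM0 : (0 : ℝ) < M := by exact_mod_cast hM
  have h1 : (M : ℂ) ^ 2 * S = ∑ x ∈ Finset.Icc 1 M, ∑ y ∈ Finset.Icc 1 M,
      (S - ∑ n ∈ Finset.Ioc N N', e (f (n + x * y))) +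
      ∑ n ∈ Finset.Ioc N N', ∑ x ∈ Finset.Icc 1 M, ∑ y ∈ Finset.Icc 1 M,
        e (f (n + x * y)) := by
    have h2 : ∑ n ∈ Finset.Ioc N N', ∑ x ∈ Finset.Icc 1 M, ∑ y ∈ Finset.Icc 1 M,
        e (f (n + x * y)) =
        ∑ x ∈ Finset.Icc 1 M, ∑ y ∈ Finset.Icc 1 M, ∑ n ∈ Finset.Ioc N N',
        e (f (n + x * y)) := by
      rw [Finset.sum_comm]
      refine Finset.sum_congr rfl fun x _ => ?_
      rw [Finset.sum_comm]
    rw [h2]
    simp only [Finset.sum_sub_distrib, Finset.sum_const, Nat.card_Icc, Nat.add_sub_cancel,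
      nsmul_eq_mul]
    ring
  have h3 : (M : ℝ) ^ 2 * ‖S‖ ≤ (M : ℝ) ^ 2 * (2 * (M : ℝ) ^ 2) +
      ∑ n ∈ Finset.Ioc N N', (M : ℝ) ^ 2 * B := by
    have h4 : ‖(M : ℂ) ^ 2 * S‖ = (M : ℝ) ^ 2 * ‖S‖ := by
      rw [norm_mul, norm_pow, Complex.norm_natCast]
    rw [← h4, h1]
    refine (norm_add_le _ _).trans (add_le_add ?_ ?_)
    · refine (norm_sum_le _ _).trans ?_
      refine (Finset.sum_le_sum (g := fun _ => (M : ℝ) * (2 * (M : ℝ) ^ 2)) fun x hx =>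
        (norm_sum_le _ _).trans ?_).trans ?_
      · refine (Finset.sum_le_sum (g := fun _ => 2 * (M : ℝ) ^ 2) fun y hy => ?_).trans ?_
        · rw [hS]
          refine (shift_one f N N' (x * y) hNN).trans ?_
          have hx' : (x : ℝ) ≤ M := by exact_mod_cast (Finset.mem_Icc.1 hx).2
          have hy' : (y : ℝ) ≤ M := by exact_mod_cast (Finset.mem_Icc.1 hy).2
          have : (x : ℝ) * y ≤ M * M := mul_le_mul hx' hy' (by positivity) (by positivity)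
          push_cast
          nlinarith
        · simp
      · simp only [Finset.sum_const, Nat.card_Icc, Nat.add_sub_cancel, nsmul_eq_mul]
        rw [sq]
        linarith
    · exact (norm_sum_le _ _).trans (Finset.sum_le_sum hB)
  rw [Finset.sum_const, Nat.card_Ioc, nsmul_eq_mul] at h3
  have h8 : (0 : ℝ) < (M : ℝ) ^ 2 := by positivity
  have h9 : (M : ℝ) ^ 2 * ‖S‖ ≤ (M : ℝ) ^ 2 * (((N' - N : ℕ) : ℝ) * B + 2 * (M : ℝ) ^ 2) := by
    linarith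
  exact le_of_mul_le_mul_left h9 h8

/-- the inner sums for polynomials -/
lemma inner_poly (G : ℝ[X]) (r M n : ℕ) (hG : G.natDegree ≤ r) :
    ‖∑ x ∈ Finset.Icc 1 M, ∑ y ∈ Finset.Icc 1 M, e (G.eval ((n + x * y : ℕ) : ℝ))‖ =
      ‖TT r M (fun j => (taylor (n : ℝ) G).coeff j)‖ := by
  have h1 : ∀ w : ℝ, G.eval ((n : ℝ) + w) = (taylor (n : ℝ) G).coeff 0 +
      ∑ j ∈ Finset.Icc 1 r, (taylor (n : ℝ) G).coeff j * w ^ j := by
    intro w
    have h2 : G.eval ((n : ℝ) + w) = (taylor (n : ℝ) G).eval w := by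
      rw [taylor_eval, add_comm]
    have h3 : (taylor (n : ℝ) G).natDegree < r + 1 := by rw [natDegree_taylor]; omega
    rw [h2, eval_eq_sum_range' h3, Finset.range_eq_Ico, Finset.sum_eq_sum_Ico_succ_bot (by omega)]
    simp only [pow_zero, mul_one]
    rfl
  have h2 : ∑ x ∈ Finset.Icc 1 M, ∑ y ∈ Finset.Icc 1 M, e (G.eval ((n + x * y : ℕ) : ℝ)) =
      e ((taylor (n : ℝ) G).coeff 0) * TT r M (fun j => (taylor (n : ℝ) G).coeff j) := by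
    rw [tt_eq, Finset.mul_sum]
    refine sum_congr rfl fun x _ => ?_
    rw [Finset.mul_sum]
    refine sum_congr rfl fun y _ => ?_
    rw [← e_add, ← h1]
    push_cast
    rfl
  rw [h2, norm_mul, norm_e, one_mul]

lemma poly_bound (G : ℝ[X]) (r M N : ℕ) (hG : G.natDegree ≤ r) (hM : 1 ≤ M) (B : ℝ)
    (hB : ∀ n : ℕ, ‖TT r M (fun j => (taylor (n : ℝ) G).coeff j)‖ ≤ (M : ℝ) ^ 2 * B) :
    ‖∑ n ∈ Finset.Ioc 0 N, e (G.eval (n : ℝ))‖ ≤ (N : ℝ) * B + 2 * (M : ℝ) ^ 2 := by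
  have h := shift (fun n => G.eval (n : ℝ)) 0 N M (Nat.zero_le _) hM B (by
    intro n _
    rw [inner_poly G r M n hG]
    exact hB n)
  simpa using h

lemma defect {r τ : ℕ} (hr : 2 ≤ r) : ((τ : ℝ) + 1) * (r * (r + 1) *
    (1 - 1 / (r : ℝ)) ^ (r * (r + 4 * (τ + 1)))) ≤ 1 / 2 := by
  have hr0 : (0 : ℝ) < r := by positivity
  have hr2 : (2 : ℝ) ≤ r := by exact_mod_cast hr
  have hτ : (0 : ℝ) ≤ τ := Nat.cast_nonneg τ
  have h0 : (0 : ℝ) ≤ 1 - 1 / r := by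
    rw [sub_nonneg, div_le_one hr0]
    linarith
  have h1 : 1 - 1 / (r : ℝ) ≤ Real.exp (-(1 / r)) := by
    have := Real.add_one_le_exp (-(1 / (r : ℝ)))
    linarith
  have h2 : (1 - 1 / (r : ℝ)) ^ (r * (r + 4 * (τ + 1))) ≤
      Real.exp (-(r : ℝ)) * Real.exp (-(4 * ((τ : ℝ) + 1))) := by
    refine (pow_le_pow_left₀ h0 h1 _).trans (le_of_eq ?_)
    rw [← Real.exp_nat_mul, ← Real.exp_add]
    congr 1
    push_cast
    field_simp
    ring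
  have h3 : (r : ℝ) * (r + 1) ≤ 2 * Real.exp r := by
    have := Real.quadratic_le_exp_of_nonneg hr0.le
    nlinarith
  have h4 : 4 * ((τ : ℝ) + 1) ≤ Real.exp (4 * ((τ : ℝ) + 1)) := by
    have := Real.add_one_le_exp (4 * ((τ : ℝ) + 1))
    linarith
  calc ((τ : ℝ) + 1) * (r * (r + 1) * (1 - 1 / (r : ℝ)) ^ (r * (r + 4 * (τ + 1))))
      ≤ ((τ : ℝ) + 1) * ((2 * Real.exp r) *
        (Real.exp (-(r : ℝ)) * Real.exp (-(4 * ((τ : ℝ) + 1))))) := by gcongr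
    _ = 2 * ((τ : ℝ) + 1) / Real.exp (4 * ((τ : ℝ) + 1)) := by
        rw [Real.exp_neg, Real.exp_neg]
        field_simp
    _ ≤ 1 / 2 := by
        rw [div_le_div_iff₀ (Real.exp_pos _) (by norm_num)]
        linarith

lemma sum_two_mul (r : ℕ) : ∑ j ∈ Finset.Icc 1 r, (2 * j) = r * (r + 1) := by
  induction r with
  | zero => simp
  | succ r ih => rw [Finset.sum_Icc_succ_top (by omega), ih]; ring

/-- the bilinear sums when one coefficient is a multiple of a number which is not a Liouville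
number -/
theorem tt_type : ∃ C : ℕ, ∀ (τ : ℕ) (x C0 : ℝ), 1 ≤ C0 →
    (∀ q : ℤ, q ≠ 0 → 1 / (C0 * |(q : ℝ)| ^ τ) ≤ dz (x * q)) →
    ∀ (r j0 U : ℕ) (l : ℤ) (H : ℝ) (α : ℕ → ℝ), 2 ≤ r → j0 ∈ Finset.Icc 1 r → 1 ≤ U → l ≠ 0 →
    |(l : ℝ)| ≤ H → α j0 = x * l →
    ‖TT r (U ^ (τ + 1)) α‖ ≤ ((U ^ (τ + 1) : ℕ) : ℝ) ^ 2 *
      (Real.exp (C * ((r : ℝ) + 4 * τ + 5) ^ C) * C0 * H ^ τ *
        (U : ℝ) ^ (-(1 / (8 * ((r : ℝ) + 4 * τ + 5) ^ 6)) : ℝ)) := by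
  obtain ⟨C, hC⟩ := tt_pow
  refine ⟨2 * C + 10, ?_⟩
  intro τ x C0 hC0 hx r j0 U l H α hr hj0 hU hl hlH hα
  obtain ⟨M, hM⟩ : ∃ M, M = U ^ (τ + 1) := ⟨_, rfl⟩
  rw [← hM]
  obtain ⟨m, hm⟩ : ∃ m, m = r * (r + 4 * (τ + 1)) := ⟨_, rfl⟩
  obtain ⟨s, hs⟩ : ∃ s, s = r ^ 2 + r * m := ⟨_, rfl⟩
  obtain ⟨P, hP⟩ : ∃ P : ℝ, P = (r : ℝ) + 4 * τ + 5 := ⟨_, rfl⟩
  rw [← hP]
  have hrR : (2 : ℝ) ≤ r := by exact_mod_cast hr
  have hτR : (0 : ℝ) ≤ τ := Nat.cast_nonneg τ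
  have hUR : (1 : ℝ) ≤ U := by exact_mod_cast hU
  have hUp : (0 : ℝ) < U := by linarith
  have hM1 : 1 ≤ M := by rw [hM]; exact Nat.one_le_pow _ _ hU
  have hMR : (1 : ℝ) ≤ M := by exact_mod_cast hM1
  have hMp : (0 : ℝ) < M := by linarith
  have hMU : (M : ℝ) = (U : ℝ) ^ ((τ : ℝ) + 1) := by
    rw [hM]; push_cast; rw [← Real.rpow_natCast]; push_cast; rfl
  have hs1 : 1 ≤ s := by rw [hs]; nlinarith
  have hsR : (1 : ℝ) ≤ s := by exact_mod_cast hs1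
  have hl1 : 1 ≤ |(l : ℝ)| := by
    have : 1 ≤ |l| := Int.one_le_abs hl
    exact_mod_cast this
  have hH1 : 1 ≤ H := hl1.trans hlH
  have hCH : 1 ≤ C0 * H ^ τ := one_le_mul_of_one_le_of_one_le hC0 (one_le_pow₀ hH1)
  have hP7 : 7 ≤ P := by rw [hP]; linarith
  have hP1 : 1 ≤ P := by linarith
  have hrP : (r : ℝ) ≤ P := by rw [hP]; linarith
  have hrm : (r : ℝ) + m = r * P := by rw [hm, hP]; push_cast; ring
  have hrmP : (r : ℝ) + m ≤ P ^ 2 := by rw [hrm]; nlinarith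
  have hsP : (s : ℝ) ≤ P ^ 3 := by
    have e1 : (s : ℝ) = r * (r + m) := by rw [hs]; push_cast; ring
    rw [e1]
    calc (r : ℝ) * (r + m) ≤ P * P ^ 2 := by gcongr
      _ = P ^ 3 := by ring
  -- the factors
  obtain ⟨σ, hσ⟩ : ∃ σ : ℝ, σ = 2 * C0 * H ^ τ / U := ⟨_, rfl⟩
  have hσ0 : 0 ≤ σ := by rw [hσ]; positivity
  have hprod : ∏ j ∈ Finset.Icc 1 r, WJ (r ^ 2 + r * m) M j (α j) ≤
      ((9 * (s : ℝ) ^ 2) ^ r * σ) * (M : ℝ) ^ (r * (r + 1)) := by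
    rw [← hs]
    have h1 : ∀ j ∈ Finset.Icc 1 r, WJ s M j (α j) ≤
        (9 * (s : ℝ) ^ 2) * (M : ℝ) ^ (2 * j) * (if j = j0 then σ else 1) := by
      intro j hj
      split_ifs with h
      · rw [h, hα, hσ]
        exact wj_type hC0 hx hl hlH hU hM hs1 (Finset.mem_Icc.1 hj0).1
      · rw [mul_one]
        refine ((Pool.Agent.Y331.VK.wb s M j (α j) hs1 hM1).1).trans ?_
        have h2 : 1 ≤ s * M ^ j := Nat.mul_pos hs1 (pow_pos hM1 j)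
        have h3 : (1 : ℝ) ≤ ((s * M ^ j : ℕ) : ℝ) := by exact_mod_cast h2
        calc (2 * ((s * M ^ j : ℕ) : ℝ) + 1) ^ 2 ≤ (3 * ((s * M ^ j : ℕ) : ℝ)) ^ 2 := by
              apply pow_le_pow_left₀ (by positivity)
              linarith
          _ = _ := by push_cast; ring
    have h0 : ∀ j ∈ Finset.Icc 1 r, 0 ≤ WJ s M j (α j) := by
      intro j _
      unfold WJ
      refine sum_nonneg fun u _ => ?_
      unfold Pool.Agent.Y957.VK.mn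
      split_ifs
      · positivity
      · exact le_min (by positivity) (by
          have := dz_nonneg (α j * u)
          positivity)
    refine (prod_le_prod h0 h1).trans (le_of_eq ?_)
    rw [prod_mul_distrib, prod_mul_distrib, prod_const, prod_pow_eq_pow_sum, sum_two_mul,
      prod_ite_eq' (Finset.Icc 1 r) j0 (fun _ => σ), if_pos hj0, Nat.card_Icc, Nat.add_sub_cancel]
    ring
  have h1 := hC r m M α _ hr hM1 (by positivity) hprod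
  rw [← hs] at h1
  -- the power of `M`
  have h2 : (M : ℝ) ^ (8 * (s : ℝ) ^ 2 + r * (r + 1) * (1 - 1 / (r : ℝ)) ^ m) ≤
      (M : ℝ) ^ (8 * s ^ 2) * (U : ℝ) ^ (1 / 2 : ℝ) := by
    rw [Real.rpow_add hMp]
    have e1 : (M : ℝ) ^ (8 * (s : ℝ) ^ 2) = (M : ℝ) ^ (8 * s ^ 2) := by
      rw [← Real.rpow_natCast (M : ℝ) (8 * s ^ 2)]; push_cast; rfl
    rw [e1]
    refine mul_le_mul_of_nonneg_left ?_ (by positivity)
    rw [hMU, ← Real.rpow_mul hUp.le]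
    apply Real.rpow_le_rpow_of_exponent_le hUR
    rw [hm]
    exact defect hr
  obtain ⟨K0, hK0⟩ : ∃ K0 : ℝ, K0 = Real.exp (2 * C * ((r : ℝ) + m) ^ C) *
    ((9 * (s : ℝ) ^ 2) ^ r * (2 * (C0 * H ^ τ))) := ⟨_, rfl⟩
  have hK01 : 1 ≤ K0 := by
    rw [hK0]
    refine one_le_mul_of_one_le_of_one_le (Real.one_le_exp (by positivity))
      (one_le_mul_of_one_le_of_one_le (one_le_pow₀ ?_) (by linarith))
    nlinarith
  obtain ⟨B, hB⟩ : ∃ B : ℝ, B = (M : ℝ) ^ 2 * (U : ℝ) ^ (-(1 / (8 * (s : ℝ) ^ 2)) : ℝ) := ⟨_, rfl⟩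
  have h3 : ‖TT r M α‖ ≤ K0 * B := by
    refine root_le (k := 4 * s ^ 2) (by positivity) (by rw [hB]; positivity) hK01 ?_
    refine h1.trans ?_
    have hBk : B ^ (4 * s ^ 2) = (M : ℝ) ^ (8 * s ^ 2) * (U : ℝ) ^ (-(1 / 2) : ℝ) := by
      rw [hB, mul_pow, ← pow_mul, ← Real.rpow_mul_natCast hUp.le]
      congr 2
      · ring
      · push_cast
        have : (s : ℝ) ≠ 0 := by positivity
        field_simp
        ring
    rw [hBk]
    calc Real.exp (2 * C * ((r : ℝ) + m) ^ C) * ((9 * (s : ℝ) ^ 2) ^ r * σ) *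
          (M : ℝ) ^ (8 * (s : ℝ) ^ 2 + r * (r + 1) * (1 - 1 / (r : ℝ)) ^ m)
        ≤ Real.exp (2 * C * ((r : ℝ) + m) ^ C) * ((9 * (s : ℝ) ^ 2) ^ r * σ) *
          ((M : ℝ) ^ (8 * s ^ 2) * (U : ℝ) ^ (1 / 2 : ℝ)) :=
          mul_le_mul_of_nonneg_left h2 (by positivity)
      _ = K0 * ((M : ℝ) ^ (8 * s ^ 2) * ((U : ℝ) ^ (1 / 2 : ℝ) * (U : ℝ)⁻¹)) := by
          rw [hK0, hσ]
          field_simp
      _ = _ := by
          congr 2
          rw [← Real.rpow_neg_one, ← Real.rpow_add hUp]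
          norm_num
  refine h3.trans ?_
  -- simplification of the constants
  have h4 : K0 ≤ Real.exp (((2 * C + 10 : ℕ) : ℝ) * P ^ (2 * C + 10)) * C0 * H ^ τ := by
    have a1 : Real.exp (2 * C * ((r : ℝ) + m) ^ C) ≤ Real.exp (2 * C * P ^ (2 * C + 10)) := by
      apply Real.exp_le_exp.2
      apply mul_le_mul_of_nonneg_left _ (by positivity)
      calc ((r : ℝ) + m) ^ C ≤ (P ^ 2) ^ C := pow_le_pow_left₀ (by positivity) hrmP C
        _ = P ^ (2 * C) := by rw [← pow_mul]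
        _ ≤ P ^ (2 * C + 10) := pow_le_pow_right₀ hP1 (by omega)
    have a2 : (9 * (s : ℝ) ^ 2) ^ r ≤ Real.exp (9 * P ^ (2 * C + 10)) := by
      have b1 : 9 * (s : ℝ) ^ 2 ≤ Real.exp (9 * P ^ 6) := by
        have b2 : 9 * (s : ℝ) ^ 2 ≤ 9 * P ^ 6 := by
          have : (s : ℝ) ^ 2 ≤ (P ^ 3) ^ 2 := pow_le_pow_left₀ (by positivity) hsP 2
          calc 9 * (s : ℝ) ^ 2 ≤ 9 * (P ^ 3) ^ 2 := by linarith
            _ = _ := by ring
        have := Real.add_one_le_exp (9 * P ^ 6)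
        linarith
      calc (9 * (s : ℝ) ^ 2) ^ r ≤ (Real.exp (9 * P ^ 6)) ^ r :=
            pow_le_pow_left₀ (by positivity) b1 r
        _ = Real.exp (r * (9 * P ^ 6)) := by rw [← Real.exp_nat_mul]
        _ ≤ Real.exp (9 * P ^ (2 * C + 10)) := by
            apply Real.exp_le_exp.2
            calc (r : ℝ) * (9 * P ^ 6) ≤ P * (9 * P ^ 6) := by gcongr
              _ = 9 * P ^ 7 := by ring
              _ ≤ 9 * P ^ (2 * C + 10) := by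
                  have := pow_le_pow_right₀ hP1 (by omega : 7 ≤ 2 * C + 10)
                  linarith
    have a3 : 2 * (C0 * H ^ τ) ≤ Real.exp (P ^ (2 * C + 10)) * (C0 * H ^ τ) := by
      apply mul_le_mul_of_nonneg_right _ (by positivity)
      have b1 : 1 ≤ P ^ (2 * C + 10) := one_le_pow₀ hP1
      have := Real.add_one_le_exp (P ^ (2 * C + 10))
      linarith
    rw [hK0]
    calc _ ≤ Real.exp (2 * C * P ^ (2 * C + 10)) * (Real.exp (9 * P ^ (2 * C + 10)) *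
          (Real.exp (P ^ (2 * C + 10)) * (C0 * H ^ τ))) := by gcongr
      _ = _ := by
          have : ((2 * C + 10 : ℕ) : ℝ) * P ^ (2 * C + 10) = 2 * C * P ^ (2 * C + 10) +
              9 * P ^ (2 * C + 10) + P ^ (2 * C + 10) := by push_cast; ring
          rw [this, Real.exp_add, Real.exp_add]
          ring
  have h5 : (U : ℝ) ^ (-(1 / (8 * (s : ℝ) ^ 2)) : ℝ) ≤ (U : ℝ) ^ (-(1 / (8 * P ^ 6)) : ℝ) := by
    apply Real.rpow_le_rpow_of_exponent_le hUR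
    apply neg_le_neg
    apply one_div_le_one_div_of_le (by positivity)
    have : (s : ℝ) ^ 2 ≤ (P ^ 3) ^ 2 := pow_le_pow_left₀ (by positivity) hsP 2
    calc 8 * (s : ℝ) ^ 2 ≤ 8 * (P ^ 3) ^ 2 := by linarith
      _ = _ := by ring
  rw [hB]
  calc K0 * ((M : ℝ) ^ 2 * (U : ℝ) ^ (-(1 / (8 * (s : ℝ) ^ 2)) : ℝ)) ≤
        (Real.exp (((2 * C + 10 : ℕ) : ℝ) * P ^ (2 * C + 10)) * C0 * H ^ τ) *
          ((M : ℝ) ^ 2 * (U : ℝ) ^ (-(1 / (8 * P ^ 6)) : ℝ)) := by gcongr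
    _ = _ := by ring

end Pool.Agent.W5h30.BS
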