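import Pool.Agent.W5h30.BS.Poly

/-!
# Exponential sums over all bases (helper30)
-/

set_option autoImplicit false

namespace Pool.Agent.W5h30.BS

open Finset Polynomial
open Pool.Agent.Y957.VK (WJ TT dz)
open Pool.Agent.Y933.KD (e norm_e e_add)

/-- the polynomial of a frequency -/
noncomputable def GP {N : ℕ} (x : ℝ) (h : Fin N → ℤ) : ℝ[X] :=
  ∑ i : Fin N, C (x * h i) * X ^ ((i : ℕ) + 1)

lemma GP_eval {N : ℕ} (x : ℝ) (h : Fin N → ℤ) (q : ℝ) :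
    (GP x h).eval q = ∑ i : Fin N, (h i : ℝ) * (x * q ^ ((i : ℕ) + 1)) := by
  unfold GP
  rw [eval_finsetSum]
  refine sum_congr rfl fun i _ => ?_
  rw [eval_mul, eval_C, eval_pow, eval_X]
  ring

lemma GP_coeff {N : ℕ} (x : ℝ) (h : Fin N → ℤ) (i : Fin N) :
    (GP x h).coeff ((i : ℕ) + 1) = x * h i := by
  unfold GP
  rw [finsetSum_coeff, Finset.sum_eq_single i]
  · rw [coeff_C_mul, coeff_X_pow, if_pos rfl, mul_one]
  · intro j _ hj
    rw [coeff_C_mul, coeff_X_pow, if_neg, mul_zero]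
    intro h'
    apply hj
    ext
    omega
  · intro h'
    exact absurd (Finset.mem_univ i) h'

lemma GP_coeff_big {N : ℕ} (x : ℝ) (h : Fin N → ℤ) (i0 : Fin N) (hi0 : ∀ i, i0 < i → h i = 0)
    (k : ℕ) (hk : (i0 : ℕ) + 1 < k) : (GP x h).coeff k = 0 := by
  unfold GP
  rw [finsetSum_coeff]
  refine Finset.sum_eq_zero fun i _ => ?_
  rw [coeff_C_mul, coeff_X_pow]
  split_ifs with h1
  · have : i0 < i := by
      rw [Fin.lt_def]
      omega
    rw [hi0 i this]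
    simp
  · rw [mul_zero]

/-- the exponential sums -/
theorem weyl : ∃ C : ℕ, ∀ (τ : ℕ) (x C0 : ℝ), 1 ≤ C0 →
    (∀ q : ℤ, q ≠ 0 → 1 / (C0 * |(q : ℝ)| ^ τ) ≤ dz (x * q)) →
    ∀ (N : ℕ) (h : Fin N → ℤ) (H : ℝ) (R U : ℕ), h ≠ 0 → (∀ i, |(h i : ℝ)| ≤ H) → 1 ≤ U →
    ‖∑ q ∈ Finset.Ioc 0 R, e (∑ i : Fin N, (h i : ℝ) * (x * (q : ℝ) ^ ((i : ℕ) + 1)))‖ ≤
      R * (Real.exp (C * ((N : ℝ) + 4 * τ + 7) ^ C) * C0 * H ^ τ *
        (U : ℝ) ^ (-(1 / (8 * ((N : ℝ) + 4 * τ + 7) ^ 6)) : ℝ)) +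
      2 * ((U ^ (τ + 1) : ℕ) : ℝ) ^ 2 := by
  classical
  obtain ⟨C, hC⟩ := tt_type
  refine ⟨C, ?_⟩
  intro τ x C0 hC0 hx N h H R U hh hH hU
  have hx0 : x ≠ 0 := by
    intro h0
    have h1 := hx 1 one_ne_zero
    have h2 : dz (x * ((1 : ℤ) : ℝ)) = 0 := by
      rw [h0]
      unfold dz
      simp
    rw [h2] at h1
    have : 0 < 1 / (C0 * |((1 : ℤ) : ℝ)| ^ τ) := by
      have : (0 : ℝ) < |((1 : ℤ) : ℝ)| := by simp
      positivity
    linarith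
  obtain ⟨i0, hi0, hmax⟩ : ∃ i0 : Fin N, h i0 ≠ 0 ∧ ∀ i, i0 < i → h i = 0 := by
    obtain ⟨k, hk⟩ := Function.ne_iff.1 hh
    have hne : (Finset.univ.filter (fun i : Fin N => h i ≠ 0)).Nonempty :=
      ⟨k, by rw [Finset.mem_filter]; exact ⟨Finset.mem_univ _, hk⟩⟩
    refine ⟨(Finset.univ.filter (fun i : Fin N => h i ≠ 0)).max' hne, ?_, ?_⟩
    · exact (Finset.mem_filter.1 (Finset.max'_mem _ hne)).2
    · intro i hi
      by_contra hcon
      have := Finset.le_max' (Finset.univ.filter (fun i : Fin N => h i ≠ 0)) i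
        (by rw [Finset.mem_filter]; exact ⟨Finset.mem_univ _, hcon⟩)
      exact absurd hi (not_lt.2 this)
  have hdeg : (GP x h).natDegree = (i0 : ℕ) + 1 := by
    refine natDegree_eq_of_le_of_coeff_ne_zero ?_ ?_
    · exact natDegree_le_iff_coeff_eq_zero.2 fun k hk => GP_coeff_big x h i0 hmax k hk
    · rw [GP_coeff]
      exact mul_ne_zero hx0 (by exact_mod_cast hi0)
  have hi0N := i0.isLt
  have key := poly_bound (GP x h) (N + 2) (U ^ (τ + 1)) R (by omega) (Nat.one_le_pow _ _ hU)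
    (Real.exp (C * ((N : ℝ) + 4 * τ + 7) ^ C) * C0 * H ^ τ *
        (U : ℝ) ^ (-(1 / (8 * ((N : ℝ) + 4 * τ + 7) ^ 6)) : ℝ)) (by
    intro n
    have h1 := hC τ x C0 hC0 hx (N + 2) ((i0 : ℕ) + 1) U (h i0) H
      (fun j => (taylor (n : ℝ) (GP x h)).coeff j) (by omega)
      (by rw [Finset.mem_Icc]; omega) hU hi0 (hH i0) (by
        have h2 := coeff_taylor_natDegree (n : ℝ) (GP x h)
        rw [hdeg, leadingCoeff, hdeg, GP_coeff] at h2
        exact h2)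
    have e1 : (((N + 2 : ℕ) : ℝ) + 4 * τ + 5) = (N : ℝ) + 4 * τ + 7 := by push_cast; ring
    rw [e1] at h1
    exact h1)
  refine le_trans (le_of_eq ?_) key
  congr 1
  refine sum_congr rfl fun q _ => ?_
  rw [GP_eval]

end Pool.Agent.W5h30.BS
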