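import Pool.Agent.Y331.VK.WB

/-!
# The factors `WJ` for badly approximable multiples (helper30)
-/

set_option autoImplicit false

namespace Pool.Agent.W5h30.BS

open Finset
open Pool.Agent.Y957.VK (dz mn WJ)

lemma dz_nonneg (θ : ℝ) : 0 ≤ dz θ := abs_nonneg _

lemma dz_sub_le (x y : ℝ) : dz (x - y) ≤ dz x + dz y := by
  unfold dz
  have h := round_le (x - y) (round x - round y)
  refine h.trans ?_
  push_cast
  have e1 : x - y - ((round x : ℝ) - round y) = (x - round x) - (y - round y) := by ring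
  rw [e1]
  exact abs_sub _ _

lemma mn_le_of {V : ℕ} {θ δ : ℝ} (hδ : 0 < δ) (h : δ / 2 ≤ dz θ) : mn V θ ≤ 1 / δ := by
  have h0 : 0 < dz θ := by linarith
  rw [mn, if_neg h0.ne']
  refine (min_le_right _ _).trans ?_
  apply one_div_le_one_div_of_le hδ
  linarith

/-- few multiples are close to an integer -/
lemma wj_le {s M j : ℕ} {a δ : ℝ} {U : ℕ} (hU : 1 ≤ U) (hδ : 0 < δ)
    (h : ∀ u : ℤ, u ≠ 0 → |u| < U → δ ≤ dz (a * u)) :
    WJ s M j a ≤ (2 * ((s * M ^ j : ℕ) : ℝ) / U + 1) * (2 * ((s * M ^ j : ℕ) : ℝ) + 1) +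
      (2 * ((s * M ^ j : ℕ) : ℝ) + 1) * (1 / δ) := by
  classical
  obtain ⟨V, hV⟩ : ∃ V : ℕ, V = s * M ^ j := ⟨_, rfl⟩
  rw [WJ, ← hV]
  have hVR : (0 : ℝ) ≤ V := Nat.cast_nonneg V
  have hUR : (0 : ℝ) < U := by exact_mod_cast hU
  rw [← sum_filter_add_sum_filter_not (Finset.Icc (-(V : ℤ)) (V : ℤ))
    (fun u : ℤ => dz (a * u) < δ / 2)]
  have hcard : ((Finset.Icc (-(V : ℤ)) (V : ℤ)).card : ℝ) = 2 * V + 1 := by
    rw [Int.card_Icc]
    have : ((V : ℤ) + 1 - -(V : ℤ)).toNat = 2 * V + 1 := by omega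
    rw [this]
    push_cast
    ring
  have h1 : (((Finset.Icc (-(V : ℤ)) (V : ℤ)).filter
      (fun u : ℤ => dz (a * u) < δ / 2)).card : ℝ) ≤ 2 * V / U + 1 := by
    have h2 : ((Finset.Icc (-(V : ℤ)) (V : ℤ)).filter
        (fun u : ℤ => dz (a * u) < δ / 2)).card ≤ (range (2 * V / U + 1)).card := by
      refine card_le_card_of_injOn (fun u => (u + V).toNat / U) (fun u hu => ?_) ?_
      · simp only [coe_filter, Finset.mem_Icc, Set.mem_ofPred_eq] at hu
        simp only [coe_range, Set.mem_Iio]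
        have : (u + V).toNat ≤ 2 * V := by omega
        exact Nat.lt_succ_of_le (Nat.div_le_div_right this)
      · intro u hu u' hu' huu
        simp only [coe_filter, Finset.mem_Icc, Set.mem_ofPred_eq] at hu hu' huu
        by_contra hne
        have h3 : |u - u'| < U := by
          have e1 := Nat.div_add_mod (u + V).toNat U
          have e2 := Nat.div_add_mod (u' + V).toNat U
          have e3 := Nat.mod_lt (u + V).toNat (by omega : 0 < U)
          have e4 := Nat.mod_lt (u' + V).toNat (by omega : 0 < U)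
          rw [huu] at e1
          obtain ⟨w, hw⟩ : ∃ w, w = U * ((u' + V).toNat / U) := ⟨_, rfl⟩
          rw [← hw] at e1 e2
          rw [abs_lt]
          constructor <;> omega
        have h4 := h (u - u') (sub_ne_zero.2 hne) h3
        have h5 := dz_sub_le (a * u) (a * u')
        have e5 : a * ((u - u' : ℤ) : ℝ) = a * u - a * u' := by push_cast; ring
        rw [e5] at h4
        linarith [hu.2, hu'.2]
    rw [card_range] at h2
    have h3 : ((2 * V / U + 1 : ℕ) : ℝ) ≤ 2 * V / U + 1 := by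
      push_cast
      have := @Nat.cast_div_le ℝ _ _ _ (2 * V) U
      push_cast at this
      linarith
    exact le_trans (by exact_mod_cast h2) h3
  refine add_le_add ?_ ?_
  · refine (sum_le_card_nsmul _ _ (2 * (V : ℝ) + 1)
      fun u _ => Pool.Agent.Y331.VK.mn_le V _).trans ?_
    rw [nsmul_eq_mul]
    exact mul_le_mul_of_nonneg_right h1 (by positivity)
  · refine (sum_le_card_nsmul _ _ (1 / δ) fun u hu => ?_).trans ?_
    · rw [mem_filter] at hu
      exact mn_le_of hδ (not_lt.1 hu.2)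
    · rw [nsmul_eq_mul]
      refine mul_le_mul_of_nonneg_right ?_ (by positivity)
      rw [← hcard]
      exact_mod_cast card_filter_le _ _

/-- the factor for a multiple of a number which is not a Liouville number -/
lemma wj_type {s M j τ : ℕ} {x C0 : ℝ} (hC0 : 1 ≤ C0)
    (hx : ∀ q : ℤ, q ≠ 0 → 1 / (C0 * |(q : ℝ)| ^ τ) ≤ dz (x * q)) {l : ℤ} (hl : l ≠ 0) {H : ℝ}
    (hlH : |(l : ℝ)| ≤ H) {U : ℕ} (hU : 1 ≤ U) (hM : M = U ^ (τ + 1)) (hs : 1 ≤ s) (hj : 1 ≤ j) :
    WJ s M j (x * l) ≤ 9 * (s : ℝ) ^ 2 * (M : ℝ) ^ (2 * j) * (2 * C0 * H ^ τ / U) := by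
  have hUR : (1 : ℝ) ≤ U := by exact_mod_cast hU
  have hUp : (0 : ℝ) < U := by linarith
  have hl1 : 1 ≤ |(l : ℝ)| := by
    have : 1 ≤ |l| := Int.one_le_abs hl
    exact_mod_cast this
  have hH1 : 1 ≤ H := hl1.trans hlH
  have hδ : 0 < 1 / (C0 * (H * U) ^ τ) := by positivity
  have h1 := wj_le (s := s) (M := M) (j := j) (a := x * l) hU hδ (by
    intro u hu huU
    have e1 : x * l * (u : ℝ) = x * ((l * u : ℤ) : ℝ) := by push_cast; ring
    rw [e1]
    refine le_trans ?_ (hx (l * u) (mul_ne_zero hl hu))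
    have h2 : |((l * u : ℤ) : ℝ)| ≤ H * U := by
      push_cast
      rw [abs_mul]
      have : |(u : ℝ)| ≤ U := by
        have : |u| ≤ (U : ℤ) := huU.le
        exact_mod_cast this
      exact mul_le_mul hlH this (abs_nonneg _) (by linarith)
    have h3 : 0 < |((l * u : ℤ) : ℝ)| := by
      rw [abs_pos]
      exact_mod_cast mul_ne_zero hl hu
    apply one_div_le_one_div_of_le (by positivity)
    gcongr)
  refine h1.trans ?_
  have hM1 : 1 ≤ M := by rw [hM]; exact Nat.one_le_pow _ _ hU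
  have hVM : M ≤ s * M ^ j := by
    calc M = 1 * M ^ 1 := by ring
      _ ≤ s * M ^ j := Nat.mul_le_mul hs (Nat.pow_le_pow_right hM1 hj)
  obtain ⟨V, hV⟩ : ∃ V : ℝ, V = ((s * M ^ j : ℕ) : ℝ) := ⟨_, rfl⟩
  have hMV : (M : ℝ) ≤ V := by rw [hV]; exact_mod_cast hVM
  have hMR : (M : ℝ) = (U : ℝ) ^ (τ + 1) := by rw [hM]; push_cast; rfl
  have hM1R : (1 : ℝ) ≤ M := by exact_mod_cast hM1
  have hV1 : 1 ≤ V := hM1R.trans hMV
  have hUV : (U : ℝ) ≤ V := by
    refine le_trans ?_ hMV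
    rw [hMR]
    exact le_self_pow₀ hUR (by omega)
  have e2 : 9 * (s : ℝ) ^ 2 * (M : ℝ) ^ (2 * j) = 9 * V ^ 2 := by
    rw [hV]; push_cast; ring
  rw [← hV, e2]
  have hCH : 1 ≤ C0 * H ^ τ := one_le_mul_of_one_le_of_one_le hC0 (one_le_pow₀ hH1)
  have a1 : (2 * V / U + 1) * (2 * V + 1) ≤ (3 * V / U) * (3 * V) := by
    have b1 : 1 ≤ V / U := by rw [le_div_iff₀ hUp]; linarith
    have b2 : 2 * V / U + 1 ≤ 3 * V / U := by
      have : 3 * V / (U : ℝ) = 2 * V / U + V / U := by ring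
      linarith
    exact mul_le_mul b2 (by linarith) (by positivity) (by positivity)
  have a2 : (2 * V + 1) * (1 / (1 / (C0 * (H * U) ^ τ))) ≤ (3 * V) * (C0 * H ^ τ * (V / U)) := by
    have b1 : 1 / (1 / (C0 * (H * U) ^ τ)) = C0 * H ^ τ * (U : ℝ) ^ τ := by
      rw [one_div_one_div, mul_pow]; ring
    rw [b1]
    have b2 : (U : ℝ) ^ τ ≤ V / U := by
      rw [le_div_iff₀ hUp, ← pow_succ, ← hMR]; exact hMV
    have b3 : 2 * V + 1 ≤ 3 * V := by linarith
    gcongr
  have a3 : (3 * V / U) * (3 * V) ≤ (9 * V ^ 2) * (C0 * H ^ τ / U) := by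
    have : (3 * V / U) * (3 * V) = (9 * V ^ 2) * (1 / U) := by ring
    rw [this]
    gcongr
  have a4 : (3 * V) * (C0 * H ^ τ * (V / U)) ≤ (9 * V ^ 2) * (C0 * H ^ τ / U) := by
    have : (9 * V ^ 2) * (C0 * H ^ τ / U) = 3 * ((3 * V) * (C0 * H ^ τ * (V / U))) := by ring
    rw [this]
    have : 0 ≤ (3 * V) * (C0 * H ^ τ * (V / U)) := by positivity
    linarith
  have e3 : 9 * V ^ 2 * (2 * C0 * H ^ τ / U) = (9 * V ^ 2) * (C0 * H ^ τ / U) +
      (9 * V ^ 2) * (C0 * H ^ τ / U) := by ring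
  rw [e3]
  linarith

end Pool.Agent.W5h30.BS
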